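import Pool.Agent.R268.WE.Hump

/-!
Weakly precompact families of functionals on `C(L)` are almost dominated by a positive functional.
-/

namespace R268.WE

open Set Filter Topology

variable {L : Type*} [TopologicalSpace L] [CompactSpace L]

/-- soft threshold -/
noncomputable def soft (a u : ℝ) : ℝ := a - max (min a u) (-u)

theorem soft_abs_le {a u : ℝ} (hu : 0 ≤ u) : |soft a u| ≤ |a| := by
  unfold soft
  rcases le_total a u with h | h
  · rw [min_eq_left h]
    rcases le_total a (-u) with h' | h'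
    · rw [max_eq_right h', abs_of_nonpos (by linarith), abs_of_nonpos (by linarith)]
      linarith
    · rw [max_eq_left h', sub_self, abs_zero]; exact abs_nonneg a
  · rw [min_eq_right h, max_eq_left (by linarith), abs_of_nonneg (by linarith),
      abs_of_nonneg (by linarith)]
    linarith

theorem soft_ne {a u : ℝ} (h : soft a u ≠ 0) : u < |a| := by
  by_contra hc
  push Not at hc
  rw [abs_le] at hc
  apply h
  unfold soft
  rw [min_eq_left hc.2, max_eq_left hc.1, sub_self]

theorem soft_sub {a u : ℝ} (hu : 0 ≤ u) : |a - soft a u| ≤ u := by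
  unfold soft
  have : a - (a - max (min a u) (-u)) = max (min a u) (-u) := by ring
  rw [this, abs_le]
  exact ⟨le_max_right _ _, max_le (min_le_right _ _) (by linarith)⟩

/-- the soft threshold of a continuous function -/
noncomputable def softC (f u : C(L, ℝ)) : C(L, ℝ) :=
  ⟨fun x => soft (f x) (u x), by unfold soft; fun_prop⟩

theorem sum_disjoint_le {ι : Type*} [DecidableEq ι] (s : Finset ι) (a : ι → ℝ) (ha : ∀ i ∈ s, |a i| ≤ 1)
    (hd : ∀ i ∈ s, ∀ j ∈ s, i ≠ j → a i ≠ 0 → a j = 0) : |∑ i ∈ s, a i| ≤ 1 := by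
  by_cases h : ∃ i ∈ s, a i ≠ 0
  · obtain ⟨i, hi, hne⟩ := h
    rw [Finset.sum_eq_single_of_mem i hi (fun j hj hji => hd i hi j hj (Ne.symm hji) hne)]
    exact ha i hi
  · push Not at h
    rw [Finset.sum_eq_zero h]
    simp

theorem dominated {X : Type*} (h : X → Du L) (R : ℝ) (hR : ∀ x, ‖h x‖ ≤ R) (wc : WC h)
    (ε : ℝ) (hε : 0 < ε) : ∃ P : Du L, Pos P ∧ ∀ x f, h x f ≤ P |f| + ε * ‖f‖ := by
  classical
  by_contra hcon
  push Not at hcon
  -- normalised choice
  have hcon' : ∀ P : Du L, Pos P → ∃ x f, ‖f‖ ≤ 1 ∧ P |f| + ε < h x f := by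
    intro P hP
    obtain ⟨x, f, hf⟩ := hcon P hP
    have hf0 : f ≠ 0 := by
      rintro rfl
      simp at hf
    have hn : 0 < ‖f‖ := norm_pos_iff.mpr hf0
    refine ⟨x, ‖f‖⁻¹ • f, by rw [norm_smul, norm_inv, norm_norm, inv_mul_cancel₀ hn.ne'], ?_⟩
    rw [pos_hom P _ (inv_pos.mpr hn), map_smul, smul_eq_mul, ← sub_pos]
    have : ‖f‖⁻¹ * h x f - (‖f‖⁻¹ * P |f| + ε) = ‖f‖⁻¹ * (h x f - (P |f| + ε * ‖f‖)) := by
      field_simp
    rw [this]
    exact mul_pos (inv_pos.mpr hn) (by linarith)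
  choose Q hQpos hQdom hQone using fun x => exists_pos_dom (h x)
  -- the set is nonempty, so R is nonnegative
  obtain ⟨x0, -, -, -⟩ := hcon' 0 (fun f _ => le_refl _)
  have hR0 : 0 ≤ R := (norm_nonneg (h x0)).trans (hR x0)
  set R' : ℝ := R + 1 with hR'
  set η : ℝ := ε / (8 * R') with hη
  have hR'0 : 0 < R' := by linarith
  have hη0 : 0 < η := by positivity
  have hηR : η * (2 * R) ≤ ε / 4 := by
    rw [hη, div_mul_eq_mul_div, div_le_div_iff₀ (by positivity) (by norm_num)]
    nlinarith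
  set c : ℝ := 8 * R' / (η * ε) with hc
  have hc0 : 0 < c := by positivity
  -- recursion
  choose xs fs hxf using fun P : {P : Du L // Pos P} => hcon' P.1 P.2
  have hstep : ∀ P : {P : Du L // Pos P}, Pos ((2:ℝ) • P.1 + c • Q (xs P)) := by
    intro P f hf
    have h1 := P.2 f hf
    have h2 := hQpos (xs P) f hf
    simp only [add_apply, smul_apply, smul_eq_mul]
    positivity
  obtain ⟨P, hP⟩ := dep_seq (α := {P : Du L // Pos P}) (fun _ _ => True)
    (fun _ P P' => P'.1 = (2:ℝ) • P.1 + c • Q (xs P)) ⟨⟨0, fun f _ => le_refl _⟩, trivial⟩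
    (fun n P _ => ⟨⟨_, hstep P⟩, trivial, rfl⟩)
  have hPs : ∀ n, (P (n + 1)).1 = (2:ℝ) • (P n).1 + c • Q (xs (P n)) := fun n => (hP n).2
  let f : ℕ → C(L, ℝ) := fun n => fs (P n)
  let x : ℕ → X := fun n => xs (P n)
  have hf1 : ∀ n, ‖f n‖ ≤ 1 := fun n => (hxf (P n)).1
  have hf2 : ∀ n, (P n).1 |f n| + ε < h (x n) (f n) := fun n => (hxf (P n)).2
  have hfx : ∀ n y, |f n y| ≤ 1 := fun n y => ((f n).norm_coe_le_norm y).trans (hf1 n)
  have hPQ : ∀ (i m : ℕ) (g : C(L, ℝ)), 0 ≤ g → 2 ^ m * c * Q (x i) g ≤ (P (i + 1 + m)).1 g := by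
    intro i m g hg
    induction m with
    | zero =>
      rw [add_zero, hPs i, pow_zero, one_mul]
      simp only [add_apply, smul_apply, smul_eq_mul]
      have := (P i).2 g hg
      show c * Q (xs (P i)) g ≤ _
      linarith
    | succ m ih =>
      rw [← add_assoc, hPs (i + 1 + m)]
      simp only [add_apply, smul_apply, smul_eq_mul]
      have := hQpos (xs (P (i + 1 + m))) g hg
      have h3 : 0 ≤ c * Q (xs (P (i + 1 + m))) g := by positivity
      rw [pow_succ]
      linarith
  have hQf : ∀ i m, Q (x i) |f (i + 1 + m)| ≤ η * ε / 8 * (1 / 2) ^ m := by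
    intro i m
    have h1 := hPQ i m |f (i + 1 + m)| (abs_nonneg _)
    have h2 := hf2 (i + 1 + m)
    have h3 : h (x (i + 1 + m)) (f (i + 1 + m)) ≤ R' := by
      calc h (x (i + 1 + m)) (f (i + 1 + m)) ≤ ‖h (x (i + 1 + m))‖ * ‖f (i + 1 + m)‖ :=
            le_norm_mul _ _
        _ ≤ R * 1 := mul_le_mul (hR _) (hf1 _) (norm_nonneg _) hR0
        _ ≤ R' := by rw [hR']; linarith
    have h4 : 2 ^ m * c * Q (x i) |f (i + 1 + m)| ≤ R' := by linarith
    have h5 : Q (x i) |f (i + 1 + m)| ≤ R' / (2 ^ m * c) := by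
      rw [le_div_iff₀ (by positivity)]
      linarith
    refine h5.trans (le_of_eq ?_)
    rw [hc, one_div, inv_pow]
    field_simp
  -- truncations
  let u : ℕ → ℕ → C(L, ℝ) := fun i N => η⁻¹ • ∑ j ∈ Finset.Ioc i N, |f j| + ContinuousMap.const L η
  have hux : ∀ i N y, u i N y = η⁻¹ * ∑ j ∈ Finset.Ioc i N, |f j y| + η := by
    intro i N y
    simp [u]
  have huη : ∀ i N y, η ≤ u i N y := by
    intro i N y
    rw [hux]
    have : 0 ≤ η⁻¹ * ∑ j ∈ Finset.Ioc i N, |f j y| :=
      mul_nonneg (inv_nonneg.mpr hη0.le) (Finset.sum_nonneg fun _ _ => abs_nonneg _)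
    linarith
  have hu0 : ∀ i N y, 0 ≤ u i N y := fun i N y => hη0.le.trans (huη i N y)
  let g : ℕ → ℕ → C(L, ℝ) := fun i N => softC (f i) (u i N)
  have hgx : ∀ i N y, g i N y = soft (f i y) (u i N y) := fun i N y => rfl
  have hg1 : ∀ i N y, |g i N y| ≤ 1 := by
    intro i N y
    rw [hgx]
    exact (soft_abs_le (hu0 i N y)).trans (hfx i y)
  have hgd : ∀ N i j y, i < j → j ≤ N → g j N y ≠ 0 → g i N y = 0 := by
    intro N i j y hij hjN hne
    by_contra hne'
    have h1 := soft_ne (show soft (f j y) (u j N y) ≠ 0 from hne)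
    have h2 := soft_ne (show soft (f i y) (u i N y) ≠ 0 from hne')
    have h3 : η < |f j y| := lt_of_le_of_lt (huη j N y) h1
    have h4 : 1 < u i N y := by
      rw [hux]
      have h5 : |f j y| ≤ ∑ j ∈ Finset.Ioc i N, |f j y| :=
        Finset.single_le_sum (f := fun j => |f j y|) (fun _ _ => abs_nonneg _)
          (Finset.mem_Ioc.mpr ⟨hij, hjN⟩)
      have h6 : 1 < η⁻¹ * |f j y| := by
        rw [lt_inv_mul_iff₀ hη0, mul_one]; exact h3
      have h7 := mul_le_mul_of_nonneg_left h5 (inv_nonneg.mpr hη0.le)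
      linarith
    linarith [hfx i y]
  have hgsum : ∀ (φ : Du L) (K N : ℕ), K ≤ N + 1 → ∑ i ∈ Finset.range K, |φ (g i N)| ≤ ‖φ‖ := by
    intro φ K N hK
    let s : ℕ → ℝ := fun i => if 0 ≤ φ (g i N) then 1 else -1
    have hs : ∀ i, |s i| = 1 := by
      intro i; simp only [s]; split_ifs <;> simp
    have hs2 : ∀ i, s i * φ (g i N) = |φ (g i N)| := by
      intro i; simp only [s]; split_ifs with hs
      · rw [one_mul, abs_of_nonneg hs]
      · rw [abs_of_neg (not_le.mp hs)]; ring
    have e : ∑ i ∈ Finset.range K, |φ (g i N)| = φ (∑ i ∈ Finset.range K, s i • g i N) := by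
      rw [map_sum]
      refine Finset.sum_congr rfl fun i _ => ?_
      rw [map_smul, smul_eq_mul, hs2]
    rw [e]
    refine (le_norm_mul _ _).trans ?_
    have : ‖∑ i ∈ Finset.range K, s i • g i N‖ ≤ 1 := by
      rw [ContinuousMap.norm_le _ zero_le_one]
      intro y
      have e2 : (∑ i ∈ Finset.range K, s i • g i N) y = ∑ i ∈ Finset.range K, s i * g i N y := by
        simp [ContinuousMap.sum_apply]
      rw [e2, Real.norm_eq_abs]
      apply sum_disjoint_le
      · intro i _
        rw [abs_mul, hs, one_mul]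
        exact hg1 i N y
      · intro i hi j hj hij hne
        rw [Finset.mem_range] at hi hj
        have hne2 : g i N y ≠ 0 := right_ne_zero_of_mul hne
        rcases lt_or_gt_of_ne hij with hlt | hlt
        · by_contra hne3
          have hne4 : g j N y ≠ 0 := right_ne_zero_of_mul hne3
          exact hne2 (hgd N i j y hlt (by omega) hne4)
        · rw [hgd N j i y hlt (by omega) hne2, mul_zero]
    calc ‖φ‖ * ‖∑ i ∈ Finset.range K, s i • g i N‖ ≤ ‖φ‖ * 1 :=
          mul_le_mul_of_nonneg_left this (norm_nonneg φ)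
      _ = ‖φ‖ := mul_one _
  have hglow : ∀ i N, ε / 2 ≤ h (x i) (g i N) := by
    intro i N
    have h1 : |h (x i) (f i - g i N)| ≤ Q (x i) |f i - g i N| := hQdom _ _
    have h2 : Q (x i) |f i - g i N| ≤ Q (x i) (u i N) := by
      apply (hQpos (x i)).mono
      intro y
      exact soft_sub (hu0 i N y)
    have h3 : Q (x i) (u i N) ≤ ε / 2 := by
      show Q (x i) (η⁻¹ • ∑ j ∈ Finset.Ioc i N, |f j| + ContinuousMap.const L η) ≤ ε / 2
      rw [map_add, map_smul, smul_eq_mul, map_sum]
      have e1 : (ContinuousMap.const L η : C(L, ℝ)) = η • ContinuousMap.const L (1:ℝ) := by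
        ext y; simp
      rw [e1, map_smul, smul_eq_mul]
      have k1 : η * Q (x i) (ContinuousMap.const L 1) ≤ ε / 4 := by
        have := mul_le_mul_of_nonneg_left ((hQone (x i)).trans
          (mul_le_mul_of_nonneg_left (hR (x i)) (by norm_num))) hη0.le
        linarith
      have k2 : ∑ j ∈ Finset.Ioc i N, Q (x i) |f j| ≤ η * ε / 4 := by
        have e2 : Finset.Ioc i N = (Finset.range (N - i)).image (fun m => i + 1 + m) := by
          ext j
          simp only [Finset.mem_Ioc, Finset.mem_image, Finset.mem_range]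
          constructor
          · intro hj
            exact ⟨j - (i + 1), by omega, by omega⟩
          · rintro ⟨m, hm, rfl⟩
            omega
        rw [e2, Finset.sum_image (fun a _ b _ hab => by omega)]
        calc ∑ m ∈ Finset.range (N - i), Q (x i) |f (i + 1 + m)|
            ≤ ∑ m ∈ Finset.range (N - i), η * ε / 8 * (1 / 2) ^ m :=
              Finset.sum_le_sum fun m _ => hQf i m
          _ = η * ε / 8 * ∑ m ∈ Finset.range (N - i), (1 / 2 : ℝ) ^ m := by rw [Finset.mul_sum]
          _ ≤ η * ε / 8 * 2 := mul_le_mul_of_nonneg_left (geom_bound _) (by positivity)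
          _ = η * ε / 4 := by ring
      have k3 : η⁻¹ * ∑ j ∈ Finset.Ioc i N, Q (x i) |f j| ≤ ε / 4 := by
        rw [inv_mul_le_iff₀ hη0]
        linarith
      linarith
    rw [abs_le, map_sub] at h1
    have h4 := hf2 i
    have h5 : 0 ≤ (P i).1 |f i| := (P i).2 _ (abs_nonneg _)
    linarith [h1.2]
  -- limits in the bidual
  let U : Ultrafilter ℕ := Filter.hyperfilter ℕ
  have hU : ∀ j : ℕ, ∀ᶠ n in (U : Filter ℕ), j ≤ n := by
    intro j
    have : (U : Filter ℕ) ≤ atTop := by
      rw [← Nat.cofinite_eq_atTop]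
      exact Filter.hyperfilter_le_cofinite
    exact this (eventually_ge_atTop j)
  have hev : ∀ i, ∃ G : Du L →L[ℝ] ℝ, ∀ φ : Du L, Tendsto (fun N => φ (g i N)) U (𝓝 (G φ)) := by
    intro i
    obtain ⟨G, _, hG⟩ := ultra_lim (E := Du L) U
      (fun N => (ContinuousLinearMap.apply ℝ ℝ (g i N) : Du L →L[ℝ] ℝ)) 1 (by
        intro N
        refine ContinuousLinearMap.opNorm_le_bound _ zero_le_one fun φ => ?_
        rw [one_mul]
        show ‖φ (g i N)‖ ≤ ‖φ‖
        refine (φ.le_opNorm _).trans ?_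
        have : ‖g i N‖ ≤ 1 := by
          rw [ContinuousMap.norm_le _ zero_le_one]
          exact fun y => hg1 i N y
        calc ‖φ‖ * ‖g i N‖ ≤ ‖φ‖ * 1 := mul_le_mul_of_nonneg_left this (norm_nonneg φ)
          _ = ‖φ‖ := mul_one _)
    exact ⟨G, hG⟩
  choose G hG using hev
  refine hump (M := Du L) (fun n => h (x n)) G ?_ (ε / 2) (by positivity) ?_ ?_
  · intro φ K
    have ht : Tendsto (fun N => ∑ i ∈ Finset.range K, |φ (g i N)|) U
        (𝓝 (∑ i ∈ Finset.range K, |G i φ|)) :=
      tendsto_finsetSum _ fun i _ => (hG i φ).abs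
    refine le_of_tendsto ht ?_
    filter_upwards [hU K] with N hN
    exact hgsum φ K N (by omega)
  · intro n
    refine le_trans ?_ (le_abs_self _)
    exact ge_of_tendsto (hG n (h (x n))) (Eventually.of_forall fun N => hglow n N)
  · intro y
    exact wc (fun n => x (y n))

end R268.WE
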