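import Pool.Agent.R268.WE.Sel

/-!
The selection theorem.
-/

namespace R268.WE

open Set Filter Topology

variable {L : Type*} [TopologicalSpace L] [CompactSpace L]

/-- elements of the order interval near `b y` -/
def Phi {X : Type*} [TopologicalSpace X] (D : Data L X) (r : ℝ) (y : X) (k : Du L) : Prop :=
  (∀ f, k f ≤ D.P |f|) ∧ ‖k - D.b y‖ ≤ D.d y + r

theorem Phi.convex {X : Type*} [TopologicalSpace X] (D : Data L X) (r : ℝ) (y : X) (k k' : Du L)
    (hk : Phi D r y k) (hk' : Phi D r y k') (s t : ℝ) (hs : 0 ≤ s) (ht : 0 ≤ t) (hst : s + t = 1) :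
    Phi D r y (s • k + t • k') := by
  refine ⟨fun f => ?_, ?_⟩
  · have h1 := mul_le_mul_of_nonneg_left (hk.1 f) hs
    have h2 := mul_le_mul_of_nonneg_left (hk'.1 f) ht
    simp only [add_apply, smul_apply, smul_eq_mul]
    have : D.P |f| = s * D.P |f| + t * D.P |f| := by rw [← add_mul, hst, one_mul]
    linarith
  · have hnn : 0 ≤ D.d y + r := (norm_nonneg (k - D.b y)).trans hk.2
    apply norm_le_of_le _ _ hnn
    intro f
    have h1 := mul_le_mul_of_nonneg_left ((le_norm_mul (k - D.b y) f).trans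
      (mul_le_mul_of_nonneg_right hk.2 (norm_nonneg f))) hs
    have h2 := mul_le_mul_of_nonneg_left ((le_norm_mul (k' - D.b y) f).trans
      (mul_le_mul_of_nonneg_right hk'.2 (norm_nonneg f))) ht
    simp only [sub_apply] at h1 h2
    simp only [sub_apply, add_apply, smul_apply, smul_eq_mul]
    have e1 : D.b y f = s * D.b y f + t * D.b y f := by rw [← add_mul, hst, one_mul]
    have e2 : (D.d y + r) * ‖f‖ = s * ((D.d y + r) * ‖f‖) + t * ((D.d y + r) * ‖f‖) := by
      rw [← add_mul, hst, one_mul]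
    linarith

/-- small in the first `j` test functions -/
def Sm (f : ℕ → C(L, ℝ)) (j : ℕ) (z : C(L, ℝ) → ℝ) : Prop := ∀ i ≤ j, |z (f i)| < (1 / 2) ^ j

theorem select {X : Type*} [TopologicalSpace X] [NormalSpace X] [ParacompactSpace X]
    (D : Data L X) (f : ℕ → C(L, ℝ)) (hf : DenseRange f) (ε : ℝ) (hε : 0 < ε) :
    ∃ k : X → Du L, (∀ g, Continuous fun x => k x g) ∧ ∀ x, Phi D ε x (k x) := by
  -- radii
  let r : ℕ → ℝ := fun j => ε * (1 - (1 / 2) ^ (j + 1))
  have hr0 : 0 < r 0 := by
    show 0 < ε * (1 - (1 / 2) ^ (0 + 1)); norm_num; exact hε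
  have hr1 : ∀ j, r j < r (j + 1) := by
    intro j
    show ε * (1 - (1 / 2) ^ (j + 1)) < ε * (1 - (1 / 2) ^ (j + 1 + 1))
    apply mul_lt_mul_of_pos_left _ hε
    have : (0:ℝ) < (1 / 2) ^ (j + 1) := by positivity
    rw [pow_succ (1 / 2 : ℝ) (j + 1)]
    linarith
  have hr2 : ∀ j, r j ≤ ε := by
    intro j
    show ε * (1 - (1 / 2) ^ (j + 1)) ≤ ε
    have : (0:ℝ) < (1 / 2) ^ (j + 1) := by positivity
    nlinarith
  let Good : ℕ → C(X, WeakDual ℝ C(L, ℝ)) → Prop := fun j g =>
    ∀ y, ∃ k : Du L, Phi D (r j) y k ∧ Sm f j (fun h => g y h - k h)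
  let Clo : ℕ → C(X, WeakDual ℝ C(L, ℝ)) → C(X, WeakDual ℝ C(L, ℝ)) → Prop := fun j g g' =>
    ∀ y, Sm f j (fun h => g' y h - g y h)
  have hSconv : ∀ (j : ℕ) (a b : ℝ) (i : ℕ), |a| < (1 / 2 : ℝ) ^ j → |b| < (1 / 2 : ℝ) ^ j →
      ∀ s t : ℝ, 0 ≤ s → 0 ≤ t → s + t = 1 → |s * a + t * b| < (1 / 2) ^ j := by
    intro j a b i ha hb s t hs ht hst
    rw [abs_lt] at *
    constructor
    · rcases eq_or_lt_of_le hs with h | h
      · rw [← h] at hst ⊢
        have : t = 1 := by linarith
        rw [this]; linarith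
      · have := mul_lt_mul_of_pos_left ha.1 h
        have := mul_le_mul_of_nonneg_left hb.1.le ht
        have e : -(1/2:ℝ)^j = s * (-(1/2:ℝ)^j) + t * (-(1/2:ℝ)^j) := by rw [← add_mul, hst, one_mul]
        linarith
    · rcases eq_or_lt_of_le hs with h | h
      · rw [← h] at hst ⊢
        have : t = 1 := by linarith
        rw [this]; linarith
      · have := mul_lt_mul_of_pos_left ha.2 h
        have := mul_le_mul_of_nonneg_left hb.2.le ht
        have e : (1/2:ℝ)^j = s * ((1/2:ℝ)^j) + t * ((1/2:ℝ)^j) := by rw [← add_mul, hst, one_mul]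
        linarith
  have base : ∃ g, Good 0 g := by
    have := exists_continuous_forall_mem_convex_of_local_const (E := WeakDual ℝ C(L, ℝ))
      (t := fun y : X => {z : WeakDual ℝ C(L, ℝ) |
        ∃ k : Du L, Phi D (r 0) y k ∧ Sm f 0 (fun h => z h - k h)})
      (by
        rintro y z ⟨k, hk1, hk2⟩ z' ⟨k', hk1', hk2'⟩ s t hs ht hst
        refine ⟨s • k + t • k', Phi.convex D _ y k k' hk1 hk1' s t hs ht hst, ?_⟩
        intro i hi
        have := hSconv 0 _ _ i (hk2 i hi) (hk2' i hi) s t hs ht hst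
        have e : (s • z + t • z') (f i) - (s • k + t • k') (f i) =
          s * (z (f i) - k (f i)) + t * (z' (f i) - k' (f i)) := by
          show s * z (f i) + t * z' (f i) - (s * k (f i) + t * k' (f i)) = _
          ring
        show |(s • z + t • z') (f i) - (s • k + t • k') (f i)| < _
        rw [e]; exact this)
      (by
        intro x
        refine ⟨StrongDual.toWeakDual (D.b x), ?_⟩
        have := lsc D x (D.b x) (D.hb x) 0 (r 0)
          (by
            have h0 : ‖D.b x - D.b x‖ ≤ 0 := norm_le_of_le _ 0 le_rfl (by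
              intro f
              simp)
            have := (norm_nonneg (D.μ x - D.b x)).trans (D.hd x)
            linarith) hr0
          (fun i : Fin 1 => f i) ((1 / 2) ^ 0) (by positivity)
        filter_upwards [this] with y ⟨k', h1, h2, h3⟩
        refine ⟨k', ⟨h1, h2⟩, ?_⟩
        intro i hi
        have := h3 ⟨i, by omega⟩
        show |D.b x (f i) - k' (f i)| < _
        rw [abs_sub_comm]
        exact this)
    obtain ⟨g, hg⟩ := this
    exact ⟨g, hg⟩
  have step : ∀ n g, Good n g → ∃ g', Good (n + 1) g' ∧ Clo n g g' := by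
    intro n g hg
    have := exists_continuous_forall_mem_convex_of_local_const (E := WeakDual ℝ C(L, ℝ))
      (t := fun y : X => {z : WeakDual ℝ C(L, ℝ) |
        (∃ k : Du L, Phi D (r (n + 1)) y k ∧ Sm f (n + 1) (fun h => z h - k h)) ∧
        Sm f n (fun h => z h - g y h)})
      (by
        rintro y z ⟨⟨k, hk1, hk2⟩, hz⟩ z' ⟨⟨k', hk1', hk2'⟩, hz'⟩ s t hs ht hst
        refine ⟨⟨s • k + t • k', Phi.convex D _ y k k' hk1 hk1' s t hs ht hst, ?_⟩, ?_⟩
        · intro i hi
          have := hSconv (n + 1) _ _ i (hk2 i hi) (hk2' i hi) s t hs ht hst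
          have e : (s • z + t • z') (f i) - (s • k + t • k') (f i) =
            s * (z (f i) - k (f i)) + t * (z' (f i) - k' (f i)) := by
            show s * z (f i) + t * z' (f i) - (s * k (f i) + t * k' (f i)) = _
            ring
          show |(s • z + t • z') (f i) - (s • k + t • k') (f i)| < _
          rw [e]; exact this
        · intro i hi
          have := hSconv n _ _ i (hz i hi) (hz' i hi) s t hs ht hst
          have e : (s • z + t • z') (f i) - g y (f i) =
            s * (z (f i) - g y (f i)) + t * (z' (f i) - g y (f i)) := by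
            have e2 : g y (f i) = s * g y (f i) + t * g y (f i) := by
              rw [← add_mul, hst, one_mul]
            show s * z (f i) + t * z' (f i) - g y (f i) = _
            rw [mul_sub, mul_sub]
            linarith
          show |(s • z + t • z') (f i) - g y (f i)| < _
          rw [e]; exact this)
      (by
        intro x
        obtain ⟨k, hk1, hk2⟩ := hg x
        refine ⟨StrongDual.toWeakDual k, ?_⟩
        have h1 := lsc D x k hk1.1 (r n) (r (n + 1)) hk1.2 (hr1 n)
          (fun i : Fin (n + 2) => f i) ((1 / 2) ^ (n + 1)) (by positivity)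
        have h2 : ∀ᶠ y in 𝓝 x, ∀ i : Fin (n + 1), |k (f i) - g y (f i)| < (1 / 2) ^ n := by
          rw [eventually_all]
          intro i
          have hc : Continuous fun y => |k (f i) - g y (f i)| :=
            (continuous_const.sub ((WeakDual.eval_continuous (f i)).comp g.continuous)).abs
          have := hk2 i (by omega)
          rw [abs_sub_comm] at this
          exact (hc.tendsto x).eventually (gt_mem_nhds this)
        filter_upwards [h1, h2] with y ⟨k', h1, h1', h3⟩ h4
        refine ⟨⟨k', ⟨h1, h1'⟩, ?_⟩, ?_⟩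
        · intro i hi
          have := h3 ⟨i, by omega⟩
          show |k (f i) - k' (f i)| < _
          rw [abs_sub_comm]
          exact this
        · intro i hi
          exact h4 ⟨i, by omega⟩)
    obtain ⟨g', hg'⟩ := this
    exact ⟨g', fun y => (hg' y).1, fun y => (hg' y).2⟩
  obtain ⟨g, hg⟩ := dep_seq Good Clo base step
  have hgood : ∀ n y, ∃ k : Du L, Phi D (r n) y k ∧ Sm f n (fun h => g n y h - k h) :=
    fun n => (hg n).1
  choose κ hκ1 hκ2 using hgood
  have hcauchy : ∀ i j m y, i ≤ j → |g (j + m) y (f i) - g j y (f i)| ≤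
      2 * (1 / 2) ^ j - 2 * (1 / 2) ^ (j + m) := by
    intro i j m y hij
    induction m with
    | zero => simp
    | succ m ih =>
      have h1 : |g (j + m + 1) y (f i) - g (j + m) y (f i)| < (1 / 2) ^ (j + m) :=
        (hg (j + m)).2 y i (by omega)
      have h2 := abs_sub_le (g (j + m + 1) y (f i)) (g (j + m) y (f i)) (g j y (f i))
      have e : j + (m + 1) = j + m + 1 := rfl
      rw [e, pow_succ (1 / 2 : ℝ) (j + m)]
      linarith
  let U : Ultrafilter ℕ := Filter.hyperfilter ℕ
  have hU : ∀ j : ℕ, ∀ᶠ n in (U : Filter ℕ), j ≤ n := by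
    intro j
    have : (U : Filter ℕ) ≤ atTop := by
      rw [← Nat.cofinite_eq_atTop]
      exact Filter.hyperfilter_le_cofinite
    exact this (eventually_ge_atTop j)
  have hlim : ∀ y, ∃ k : Du L, ∀ x, Tendsto (fun n => κ n y x) U (𝓝 (k x)) := by
    intro y
    obtain ⟨k, _, hk⟩ := ultra_lim U (fun n => κ n y) (D.P (ContinuousMap.const L 1))
      (fun n => norm_le_of_dom D.hP (hκ1 n y).1)
    exact ⟨k, hk⟩
  choose k hk using hlim
  have hkdom : ∀ y f, k y f ≤ D.P |f| := fun y f =>
    le_of_tendsto (hk y f) (Eventually.of_forall fun n => (hκ1 n y).1 f)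
  have hPhi : ∀ y, Phi D ε y (k y) := by
    intro y
    refine ⟨hkdom y, ?_⟩
    have hdnn : 0 ≤ D.d y := (norm_nonneg (D.μ y - D.b y)).trans (D.hd y)
    apply norm_le_of_le _ _ (by linarith)
    intro h
    have ht : Tendsto (fun n => (κ n y - D.b y) h) U (𝓝 ((k y - D.b y) h)) := by
      simp only [sub_apply]
      exact (hk y h).sub_const _
    refine le_of_tendsto ht (Eventually.of_forall fun n => ?_)
    refine (le_norm_mul _ _).trans (mul_le_mul_of_nonneg_right ?_ (norm_nonneg h))
    exact (hκ1 n y).2.trans (by linarith [hr2 n])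
  have hclose : ∀ i j y, i ≤ j → |k y (f i) - g j y (f i)| ≤ 2 * (1 / 2) ^ j := by
    intro i j y hij
    have ht : Tendsto (fun n => |κ n y (f i) - g j y (f i)|) U (𝓝 |k y (f i) - g j y (f i)|) :=
      ((hk y (f i)).sub_const _).abs
    refine le_of_tendsto ht ?_
    filter_upwards [hU j] with n hn
    obtain ⟨m, rfl⟩ := Nat.exists_eq_add_of_le hn
    have h1 := hκ2 (j + m) y i (by omega)
    have h2 := hcauchy i j m y hij
    have h3 := abs_sub_le (κ (j + m) y (f i)) (g (j + m) y (f i)) (g j y (f i))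
    simp only at h1
    rw [abs_sub_comm] at h1
    have : (0:ℝ) < (1 / 2) ^ (j + m) := by positivity
    linarith
  have hcont : ∀ i, Continuous fun y => k y (f i) := by
    intro i
    have hu : TendstoUniformly (fun (j : ℕ) y => g j y (f i)) (fun y => k y (f i)) atTop := by
      rw [Metric.tendstoUniformly_iff]
      intro e he
      have : Tendsto (fun j : ℕ => 2 * (1 / 2 : ℝ) ^ j) atTop (𝓝 (2 * 0)) :=
        (tendsto_pow_atTop_nhds_zero_of_lt_one (by norm_num) (by norm_num)).const_mul 2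
      rw [mul_zero] at this
      filter_upwards [this.eventually (gt_mem_nhds he), eventually_ge_atTop i] with j hj hij y
      rw [Real.dist_eq]
      exact lt_of_le_of_lt (hclose i j y hij) hj
    exact hu.continuous (Frequently.of_forall fun j =>
      (WeakDual.eval_continuous (f i)).comp (g j).continuous)
  refine ⟨k, ?_, hPhi⟩
  intro h
  -- approximate h by f i
  set C := D.P (ContinuousMap.const L 1) with hC
  have hC0 : 0 ≤ C := D.hP _ (fun x => zero_le_one (α := ℝ))
  refine continuous_of_uniform_approx_of_continuous ?_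
  intro u hu
  obtain ⟨e, he, heu⟩ := Metric.mem_uniformity_dist.mp hu
  obtain ⟨i, hi⟩ := hf.exists_dist_lt h (show 0 < e / (C + 1) by positivity)
  refine ⟨fun y => k y (f i), hcont i, fun y => heu ?_⟩
  rw [Real.dist_eq, ← map_sub]
  calc |k y (h - f i)| ≤ ‖k y‖ * ‖h - f i‖ := (k y).le_opNorm _
    _ ≤ C * ‖h - f i‖ := mul_le_mul_of_nonneg_right (norm_le_of_dom D.hP (hkdom y)) (norm_nonneg _)
    _ ≤ C * (e / (C + 1)) := by
        apply mul_le_mul_of_nonneg_left _ hC0
        rw [← dist_eq_norm]; exact hi.le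
    _ < e := by
        rw [← mul_div_assoc, div_lt_iff₀ (by positivity)]
        nlinarith

/-- Selection theorem. -/
theorem selection {X : Type*} [TopologicalSpace X] [NormalSpace X] [ParacompactSpace X]
    [TopologicalSpace.SeparableSpace C(L, ℝ)]
    (μ : X → Du L) (hμ : ∀ f, Continuous fun x => μ x f) (P : Du L) (hP : Pos P) (δ : ℝ)
    (hδ : ∀ x f, μ x f ≤ P |f| + δ * ‖f‖) (hδ0 : 0 ≤ δ) (ε : ℝ) (hε : 0 < ε) :
    ∃ k : X → Du L, (∀ g, Continuous fun x => k x g) ∧ (∀ x f, |k x f| ≤ P |f|) ∧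
      ∀ x, ‖μ x - k x‖ ≤ 2 * δ + ε := by
  -- distances
  let S : X → Set ℝ := fun x => (fun f => μ x f - P |f|) '' {f : C(L, ℝ) | ‖f‖ ≤ 1}
  have hSb : ∀ x, BddAbove (S x) := by
    intro x
    refine ⟨δ, ?_⟩
    rintro _ ⟨f, hf, rfl⟩
    have := hδ x f
    have h2 := mul_le_mul_of_nonneg_left (show ‖f‖ ≤ 1 from hf) hδ0
    simp only
    linarith
  have hS0 : ∀ x, (0:ℝ) ∈ S x := fun x => ⟨0, by simp, by simp⟩
  let d : X → ℝ := fun x => sSup (S x)
  have hd0 : ∀ x, 0 ≤ d x := fun x => le_csSup (hSb x) (hS0 x)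
  have hdδ : ∀ x, d x ≤ δ := by
    intro x
    refine csSup_le ⟨0, hS0 x⟩ ?_
    rintro _ ⟨f, hf, rfl⟩
    have := hδ x f
    have h2 := mul_le_mul_of_nonneg_left (show ‖f‖ ≤ 1 from hf) hδ0
    simp only
    linarith
  have hdom : ∀ x f, μ x f ≤ P |f| + d x * ‖f‖ := by
    intro x f
    rcases eq_or_ne f 0 with rfl | hf
    · simp
    · have hn : 0 < ‖f‖ := norm_pos_iff.mpr hf
      have := le_csSup (hSb x) ⟨‖f‖⁻¹ • f, by
        show ‖‖f‖⁻¹ • f‖ ≤ 1
        rw [norm_smul, norm_inv, norm_norm, inv_mul_cancel₀ hn.ne'], rfl⟩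
      simp only at this
      rw [pos_hom P _ (inv_pos.mpr hn), map_smul, smul_eq_mul, ← mul_sub,
        inv_mul_le_iff₀ hn] at this
      have e : ‖f‖ * sSup (S x) = d x * ‖f‖ := mul_comm _ _
      linarith
  have hb : ∀ x, ∃ b : Du L, (∀ f, b f ≤ P |f|) ∧ ‖μ x - b‖ ≤ d x := fun x =>
    exists_proj P (μ x) hP (d x) (hd0 x) (hdom x)
  choose b hb1 hb2 using hb
  let D : Data L X := {
    P := P
    hP := hP
    μ := μ
    hμ := hμ
    b := b
    d := d
    hb := hb1
    hd := hb2
    hd' := by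
      intro x θ hθ
      obtain ⟨_, ⟨f, hf, rfl⟩, h⟩ := exists_lt_of_lt_csSup ⟨0, hS0 x⟩
        (show d x - θ < sSup (S x) by
          show sSup (S x) - θ < sSup (S x)
          linarith)
      exact ⟨f, hf, h.le⟩ }
  obtain ⟨k, hk1, hk2⟩ := select D (TopologicalSpace.denseSeq C(L, ℝ))
    (TopologicalSpace.denseRange_denseSeq _) ε hε
  refine ⟨k, hk1, fun x f => abs_le_of_dom (hk2 x).1 f, fun x => ?_⟩
  have h1 : ‖k x - b x‖ ≤ d x + ε := (hk2 x).2
  have h2 : ‖μ x - k x‖ ≤ ‖μ x - b x‖ + ‖k x - b x‖ := by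
    have : μ x - k x = (μ x - b x) - (k x - b x) := by abel
    rw [this]
    exact norm_sub_le (μ x - b x) (k x - b x)
  linarith [hb2 x, hdδ x]

end R268.WE
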