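import Pool.Agent.R268.WE.WCpt
import Pool.Agent.R268.WE.Dom
import Pool.Agent.R268.WE.Michael

/-!
The weak essential norm of `T` and of `T^*`.
-/

namespace R268.WE

open Set Filter Topology MeasureTheory unitInterval

/-- point evaluation -/
noncomputable def ev (𝕜 : Type*) [RCLike 𝕜] (t : I) : DualK 𝕜 C(I, 𝕜) :=
  LinearMap.mkContinuous
    { toFun := fun f => f t
      map_add' := fun _ _ => rfl
      map_smul' := fun _ _ => rfl } 1 (fun f => by
        rw [one_mul]; exact f.norm_coe_le_norm t)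

theorem ev_apply {𝕜 : Type*} [RCLike 𝕜] (t : I) (f : C(I, 𝕜)) : ev 𝕜 t f = f t := rfl

theorem ev_norm {𝕜 : Type*} [RCLike 𝕜] (t : I) : ‖ev 𝕜 t‖ ≤ 1 :=
  LinearMap.mkContinuous_norm_le _ zero_le_one _

theorem diff_bound {𝕜 : Type*} [RCLike 𝕜] (T : C(I, 𝕜) →L[𝕜] C(I, 𝕜))
    (V : DualK 𝕜 C(I, 𝕜) →L[𝕜] DualK 𝕜 C(I, 𝕜)) (t : I) (f : C(I, 𝕜)) :
    ‖T f t - V (ev 𝕜 t) f‖ ≤ ‖adj 𝕜 T - V‖ * ‖f‖ := by
  have e : T f t - V (ev 𝕜 t) f = (adj 𝕜 T - V) (ev 𝕜 t) f := rfl
  rw [e]
  calc ‖(adj 𝕜 T - V) (ev 𝕜 t) f‖ ≤ ‖(adj 𝕜 T - V) (ev 𝕜 t)‖ * ‖f‖ :=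
        ContinuousLinearMap.le_opNorm _ _
    _ ≤ (‖adj 𝕜 T - V‖ * ‖ev 𝕜 t‖) * ‖f‖ :=
        mul_le_mul_of_nonneg_right (ContinuousLinearMap.le_opNorm _ _) (norm_nonneg f)
    _ ≤ (‖adj 𝕜 T - V‖ * 1) * ‖f‖ := by
        apply mul_le_mul_of_nonneg_right _ (norm_nonneg f)
        exact mul_le_mul_of_nonneg_left (ev_norm t) (norm_nonneg (adj 𝕜 T - V))
    _ = _ := by rw [mul_one]

/-! ### Real scalars -/

theorem real_case (T : C(I, ℝ) →L[ℝ] C(I, ℝ))
    (V : DualK ℝ C(I, ℝ) →L[ℝ] DualK ℝ C(I, ℝ)) (hV : IsWeaklyCompactOp ℝ V) :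
    wEssNorm ℝ T ≤ 2 * ‖adj ℝ T - V‖ := by
  have hδ0 : 0 ≤ ‖adj ℝ T - V‖ := norm_nonneg (adj ℝ T - V)
  apply le_of_forall_pos_le_add
  intro ε0 hε0
  set ε : ℝ := ε0 / 3 with hε
  have hεp : 0 < ε := by positivity
  let h : I → Du I := fun t => V (ev ℝ t)
  have hR : ∀ t, ‖h t‖ ≤ ‖V‖ := by
    intro t
    calc ‖V (ev ℝ t)‖ ≤ ‖V‖ * ‖ev ℝ t‖ := V.le_opNorm _
      _ ≤ ‖V‖ * 1 := mul_le_mul_of_nonneg_left (ev_norm t) (norm_nonneg V)
      _ = ‖V‖ := mul_one _
  have wc : WC h := wc_of_compact (𝕜 := ℝ) (ContinuousLinearMap.id ℝ (Du I))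
    (V '' Metric.closedBall 0 1) hV h (fun t => ⟨ev ℝ t, by
      rw [mem_closedBall_zero_iff]; exact ev_norm t, rfl⟩)
  obtain ⟨P, hP, hdom⟩ := dominated h ‖V‖ hR wc ε hεp
  let μ : I → Du I := fun t => adj ℝ T (ev ℝ t)
  have hμ : ∀ t f, μ t f = T f t := fun t f => rfl
  obtain ⟨k, hk1, hk2, hk3⟩ := selection μ (fun f => (T f).continuous) P hP (‖adj ℝ T - V‖ + ε)
    (by
      intro t f
      have h1 := diff_bound T V t f
      rw [Real.norm_eq_abs] at h1
      have h2 := (abs_le.mp h1).2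
      have h3 := hdom t f
      have h4 : V (ev ℝ t) f = h t f := rfl
      rw [hμ, add_mul]
      linarith) (by positivity) ε hεp
  have hPnn : 0 ≤ P (ContinuousMap.const I 1) := hP _ (fun x => zero_le_one (α := ℝ))
  have hbd : ∀ (f : C(I, ℝ)) (t : I), |k t f| ≤ P (nrm f) := by
    intro f t
    refine (hk2 t f).trans (le_of_eq ?_)
    rfl
  let W : C(I, ℝ) →L[ℝ] C(I, ℝ) := LinearMap.mkContinuous
    { toFun := fun f => ⟨fun t => k t f, hk1 f⟩
      map_add' := fun f g => by ext t; exact map_add (k t) f g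
      map_smul' := fun c f => by ext t; exact map_smul (k t) c f }
    (P (ContinuousMap.const I 1)) (by
      intro f
      rw [ContinuousMap.norm_le _ (mul_nonneg hPnn (norm_nonneg f))]
      intro t
      exact (hk2 t f).trans (hP.le_norm f))
  have hW : ∀ f t, W f t = k t f := fun f t => rfl
  have hWc : IsWeaklyCompactOp ℝ W := by
    refine isWeaklyCompactOp_of_dom W P hP fun f => ?_
    have h0 : 0 ≤ P (nrm f) := hP _ (fun x => norm_nonneg (f x))
    rw [ContinuousMap.norm_le _ h0]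
    intro t
    rw [hW, Real.norm_eq_abs]
    exact hbd f t
  refine (wEssNorm_le T W hWc).trans ?_
  refine ContinuousLinearMap.opNorm_le_bound _ (by positivity) fun f => ?_
  rw [ContinuousMap.norm_le _ (by positivity)]
  intro t
  have e : (T - W) f t = (μ t - k t) f := rfl
  rw [e]
  calc ‖(μ t - k t) f‖ ≤ ‖μ t - k t‖ * ‖f‖ := ContinuousLinearMap.le_opNorm _ _
    _ ≤ (2 * (‖adj ℝ T - V‖ + ε) + ε) * ‖f‖ := mul_le_mul_of_nonneg_right (hk3 t) (norm_nonneg f)
    _ = (2 * ‖adj ℝ T - V‖ + ε0) * ‖f‖ := by rw [hε]; ring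

/-! ### Complex scalars -/

/-- real part -/
noncomputable def reC (f : C(I, ℂ)) : C(I, ℝ) := ⟨fun x => (f x).re, by fun_prop⟩

/-- imaginary part -/
noncomputable def imC (f : C(I, ℂ)) : C(I, ℝ) := ⟨fun x => (f x).im, by fun_prop⟩

/-- inclusion of real functions -/
noncomputable def ofC (f : C(I, ℝ)) : C(I, ℂ) := ⟨fun x => (f x : ℂ), by fun_prop⟩

theorem norm_ofC (f : C(I, ℝ)) : ‖ofC f‖ ≤ ‖f‖ := by
  rw [ContinuousMap.norm_le _ (norm_nonneg f)]
  intro x
  show ‖(f x : ℂ)‖ ≤ _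
  rw [Complex.norm_real]
  exact f.norm_coe_le_norm x

theorem norm_reC (f : C(I, ℂ)) : ‖reC f‖ ≤ ‖f‖ := by
  rw [ContinuousMap.norm_le _ (norm_nonneg f)]
  intro x
  exact (Complex.abs_re_le_norm (f x)).trans (f.norm_coe_le_norm x)

/-- real part of a complex functional restricted to the real functions -/
noncomputable def rhoRe : DualK ℂ C(I, ℂ) →L[ℝ] Du I :=
  LinearMap.mkContinuous
    { toFun := fun φ => LinearMap.mkContinuous
        { toFun := fun f => (φ (ofC f)).re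
          map_add' := fun f g => by
            have : ofC (f + g) = ofC f + ofC g := by ext x; simp [ofC]
            rw [this, map_add, Complex.add_re]
          map_smul' := fun c f => by
            have : ofC (c • f) = (c : ℂ) • ofC f := by ext x; simp [ofC]
            rw [this, map_smul]
            simp } ‖φ‖ (fun f => by
              refine (Complex.abs_re_le_norm _).trans ((φ.le_opNorm _).trans ?_)
              exact mul_le_mul_of_nonneg_left (norm_ofC f) (norm_nonneg φ))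
      map_add' := fun φ ψ => by ext f; rfl
      map_smul' := fun c φ => by
        ext f
        show ((c • φ) (ofC f)).re = c * (φ (ofC f)).re
        simp } 1 (fun φ => by
          rw [one_mul]
          refine norm_le_of_le _ _ (norm_nonneg φ) fun f => ?_
          show (φ (ofC f)).re ≤ ‖φ‖ * ‖f‖
          exact (Complex.re_le_norm _).trans ((φ.le_opNorm _).trans
            (mul_le_mul_of_nonneg_left (norm_ofC f) (norm_nonneg φ))))

/-- imaginary part of a complex functional restricted to the real functions -/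
noncomputable def rhoIm : DualK ℂ C(I, ℂ) →L[ℝ] Du I :=
  LinearMap.mkContinuous
    { toFun := fun φ => LinearMap.mkContinuous
        { toFun := fun f => (φ (ofC f)).im
          map_add' := fun f g => by
            have : ofC (f + g) = ofC f + ofC g := by ext x; simp [ofC]
            rw [this, map_add, Complex.add_im]
          map_smul' := fun c f => by
            have : ofC (c • f) = (c : ℂ) • ofC f := by ext x; simp [ofC]
            rw [this, map_smul]
            simp } ‖φ‖ (fun f => by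
              refine (Complex.abs_im_le_norm _).trans ((φ.le_opNorm _).trans ?_)
              exact mul_le_mul_of_nonneg_left (norm_ofC f) (norm_nonneg φ))
      map_add' := fun φ ψ => by ext f; rfl
      map_smul' := fun c φ => by
        ext f
        show ((c • φ) (ofC f)).im = c * (φ (ofC f)).im
        simp } 1 (fun φ => by
          rw [one_mul]
          refine norm_le_of_le _ _ (norm_nonneg φ) fun f => ?_
          show (φ (ofC f)).im ≤ ‖φ‖ * ‖f‖
          exact ((le_abs_self _).trans (Complex.abs_im_le_norm _)).trans ((φ.le_opNorm _).trans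
            (mul_le_mul_of_nonneg_left (norm_ofC f) (norm_nonneg φ))))

theorem rhoRe_apply (φ : DualK ℂ C(I, ℂ)) (f : C(I, ℝ)) : rhoRe φ f = (φ (ofC f)).re := rfl

theorem rhoIm_apply (φ : DualK ℂ C(I, ℂ)) (f : C(I, ℝ)) : rhoIm φ f = (φ (ofC f)).im := rfl

/-- norm of the complexification of a real functional -/
theorem complexify_bound (a : Du I) (f : C(I, ℂ)) :
    ‖((a (reC f) : ℝ) : ℂ) + Complex.I * ((a (imC f) : ℝ) : ℂ)‖ ≤ ‖a‖ * ‖f‖ := by
  set z : ℂ := ((a (reC f) : ℝ) : ℂ) + Complex.I * ((a (imC f) : ℝ) : ℂ) with hz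
  rcases eq_or_ne z 0 with h | h
  · rw [h, norm_zero]; positivity
  · have hzn : 0 < ‖z‖ := norm_pos_iff.mpr h
    set θ : ℂ := (starRingEnd ℂ) z / (‖z‖ : ℂ) with hθ
    have hθn : ‖θ‖ = 1 := by
      rw [hθ, norm_div, RCLike.norm_conj, Complex.norm_real, norm_norm, div_self hzn.ne']
    have e1 : θ * z = (‖z‖ : ℂ) := by
      rw [hθ, div_mul_eq_mul_div, ← Complex.normSq_eq_conj_mul_self, Complex.normSq_eq_norm_sq]
      push_cast
      field_simp
    have e2 : (θ * z).re = θ.re * a (reC f) - θ.im * a (imC f) := by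
      rw [hz]; simp
    have e3 : reC (θ • f) = θ.re • reC f - θ.im • imC f := by
      ext x; simp [reC, imC]
    have e4 : ‖z‖ = a (reC (θ • f)) := by
      rw [e3, map_sub, map_smul, map_smul, smul_eq_mul, smul_eq_mul, ← e2, e1, Complex.ofReal_re]
    rw [e4]
    calc a (reC (θ • f)) ≤ ‖a‖ * ‖reC (θ • f)‖ := le_norm_mul _ _
      _ ≤ ‖a‖ * ‖θ • f‖ := mul_le_mul_of_nonneg_left (norm_reC _) (norm_nonneg a)
      _ = ‖a‖ * ‖f‖ := by rw [norm_smul, hθn, one_mul]

theorem complex_case (T : C(I, ℂ) →L[ℂ] C(I, ℂ))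
    (V : DualK ℂ C(I, ℂ) →L[ℂ] DualK ℂ C(I, ℂ)) (hV : IsWeaklyCompactOp ℂ V) :
    wEssNorm ℂ T ≤ 4 * ‖adj ℂ T - V‖ := by
  have hδ0 : 0 ≤ ‖adj ℂ T - V‖ := norm_nonneg (adj ℂ T - V)
  apply le_of_forall_pos_le_add
  intro ε0 hε0
  set ε : ℝ := ε0 / 6 with hε
  have hεp : 0 < ε := by positivity
  have hVev : ∀ t, ‖V (ev ℂ t)‖ ≤ ‖V‖ := by
    intro t
    calc ‖V (ev ℂ t)‖ ≤ ‖V‖ * ‖ev ℂ t‖ := V.le_opNorm _
      _ ≤ ‖V‖ * 1 := mul_le_mul_of_nonneg_left (ev_norm t) (norm_nonneg V)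
      _ = ‖V‖ := mul_one _
  have hofC_le : ∀ (φ : DualK ℂ C(I, ℂ)) (f : C(I, ℝ)), ‖φ (ofC f)‖ ≤ ‖φ‖ * ‖f‖ :=
    fun φ f => (φ.le_opNorm _).trans (mul_le_mul_of_nonneg_left (norm_ofC f) (norm_nonneg φ))
  have hR1 : ∀ t, ‖rhoRe (V (ev ℂ t))‖ ≤ ‖V‖ := by
    intro t
    apply norm_le_of_le _ _ (norm_nonneg V)
    intro f
    rw [rhoRe_apply]
    exact (Complex.re_le_norm _).trans ((hofC_le _ f).trans
      (mul_le_mul_of_nonneg_right (hVev t) (norm_nonneg f)))
  have hR2 : ∀ t, ‖rhoIm (V (ev ℂ t))‖ ≤ ‖V‖ := by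
    intro t
    apply norm_le_of_le _ _ (norm_nonneg V)
    intro f
    rw [rhoIm_apply]
    exact (le_abs_self _).trans ((Complex.abs_im_le_norm _).trans ((hofC_le _ f).trans
      (mul_le_mul_of_nonneg_right (hVev t) (norm_nonneg f))))
  have hmem : ∀ t : I, V (ev ℂ t) ∈ V '' Metric.closedBall 0 1 := fun t => ⟨ev ℂ t, by
    rw [mem_closedBall_zero_iff]; exact ev_norm t, rfl⟩
  have wc1 : WC (fun t => rhoRe (V (ev ℂ t))) := wc_of_compact (𝕜 := ℂ) rhoRe
    (V '' Metric.closedBall 0 1) hV (fun t => V (ev ℂ t)) hmem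
  have wc2 : WC (fun t => rhoIm (V (ev ℂ t))) := wc_of_compact (𝕜 := ℂ) rhoIm
    (V '' Metric.closedBall 0 1) hV (fun t => V (ev ℂ t)) hmem
  obtain ⟨P1, hP1, hdom1⟩ := dominated _ ‖V‖ hR1 wc1 ε hεp
  obtain ⟨P2, hP2, hdom2⟩ := dominated _ ‖V‖ hR2 wc2 ε hεp
  have hdiff : ∀ t (f : C(I, ℝ)), ‖T (ofC f) t - V (ev ℂ t) (ofC f)‖ ≤ ‖adj ℂ T - V‖ * ‖f‖ :=
    fun t f => (diff_bound T V t (ofC f)).trans (mul_le_mul_of_nonneg_left (norm_ofC f) hδ0)
  obtain ⟨k1, hk1, hk1', hk1''⟩ := selection (fun t => rhoRe (adj ℂ T (ev ℂ t)))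
    (fun f => Complex.continuous_re.comp (T (ofC f)).continuous) P1 hP1 (‖adj ℂ T - V‖ + ε)
    (by
      intro t f
      have h1 := (Complex.re_le_norm _).trans (hdiff t f)
      rw [Complex.sub_re] at h1
      have h3 := hdom1 t f
      simp only [rhoRe_apply] at h3
      rw [rhoRe_apply, adj_apply, ev_apply, add_mul]
      linarith) (by positivity) ε hεp
  obtain ⟨k2, hk2, hk2', hk2''⟩ := selection (fun t => rhoIm (adj ℂ T (ev ℂ t)))
    (fun f => Complex.continuous_im.comp (T (ofC f)).continuous) P2 hP2 (‖adj ℂ T - V‖ + ε)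
    (by
      intro t f
      have h1 := ((le_abs_self _).trans (Complex.abs_im_le_norm _)).trans (hdiff t f)
      rw [Complex.sub_im] at h1
      have h3 := hdom2 t f
      simp only [rhoIm_apply] at h3
      rw [rhoIm_apply, adj_apply, ev_apply, add_mul]
      linarith) (by positivity) ε hεp
  -- the operator
  let w : C(I, ℂ) → I → ℂ := fun f t =>
    (((k1 t (reC f) - k2 t (imC f) : ℝ)) : ℂ) +
      Complex.I * (((k2 t (reC f) + k1 t (imC f) : ℝ)) : ℂ)
  have hwc : ∀ f, Continuous (w f) := by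
    intro f
    have a1 := hk1 (reC f)
    have a2 := hk1 (imC f)
    have a3 := hk2 (reC f)
    have a4 := hk2 (imC f)
    exact (Complex.continuous_ofReal.comp (a1.sub a4)).add
      (continuous_const.mul (Complex.continuous_ofReal.comp (a3.add a2)))
  have hreadd : ∀ f g : C(I, ℂ), reC (f + g) = reC f + reC g := fun f g => by
    ext x; simp [reC]
  have himadd : ∀ f g : C(I, ℂ), imC (f + g) = imC f + imC g := fun f g => by
    ext x; simp [imC]
  have hresmul : ∀ (c : ℂ) (f : C(I, ℂ)), reC (c • f) = c.re • reC f - c.im • imC f := fun c f => by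
    ext x; simp [reC, imC]
  have himsmul : ∀ (c : ℂ) (f : C(I, ℂ)), imC (c • f) = c.re • imC f + c.im • reC f := fun c f => by
    ext x; simp [reC, imC]
  have hre_nrm : ∀ f : C(I, ℂ), |reC f| ≤ nrm f := fun f x => Complex.abs_re_le_norm (f x)
  have him_nrm : ∀ f : C(I, ℂ), |imC f| ≤ nrm f := fun f x => Complex.abs_im_le_norm (f x)
  let P : Du I := (2:ℝ) • P1 + (2:ℝ) • P2
  have hP : Pos P := by
    intro f hf
    have h1 := hP1 f hf
    have h2 := hP2 f hf
    show 0 ≤ 2 * P1 f + 2 * P2 f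
    linarith
  have hwbd : ∀ f t, ‖w f t‖ ≤ P (nrm f) := by
    intro f t
    have b1 := (hk1' t (reC f)).trans (hP1.mono (hre_nrm f))
    have b2 := (hk1' t (imC f)).trans (hP1.mono (him_nrm f))
    have b3 := (hk2' t (reC f)).trans (hP2.mono (hre_nrm f))
    have b4 := (hk2' t (imC f)).trans (hP2.mono (him_nrm f))
    have c1 : ‖w f t‖ ≤ |k1 t (reC f) - k2 t (imC f)| + |k2 t (reC f) + k1 t (imC f)| := by
      refine (norm_add_le _ _).trans ?_
      rw [norm_mul, Complex.norm_I, one_mul, Complex.norm_real, Complex.norm_real]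
      exact le_refl _
    have c2 := abs_sub (k1 t (reC f)) (k2 t (imC f))
    have c3 := abs_add_le (k2 t (reC f)) (k1 t (imC f))
    show _ ≤ 2 * P1 (nrm f) + 2 * P2 (nrm f)
    linarith
  have hPnn : 0 ≤ P (ContinuousMap.const I 1) := hP _ (fun x => zero_le_one (α := ℝ))
  have hnrm : ∀ f : C(I, ℂ), P (nrm f) ≤ P (ContinuousMap.const I 1) * ‖f‖ := by
    intro f
    have h1 := hP.le_norm (nrm f)
    have h2 : |nrm f| = nrm f := abs_of_nonneg (fun x => norm_nonneg (f x))
    rw [h2] at h1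
    refine h1.trans (mul_le_mul_of_nonneg_left ?_ hPnn)
    rw [ContinuousMap.norm_le _ (norm_nonneg f)]
    intro x
    show ‖‖f x‖‖ ≤ _
    rw [norm_norm]
    exact f.norm_coe_le_norm x
  let W : C(I, ℂ) →L[ℂ] C(I, ℂ) := LinearMap.mkContinuous
    { toFun := fun f => ⟨w f, hwc f⟩
      map_add' := fun f g => by
        ext t
        show w (f + g) t = w f t + w g t
        simp only [w, hreadd, himadd, map_add]
        push_cast
        ring
      map_smul' := fun c f => by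
        ext t
        show w (c • f) t = c * w f t
        simp only [w, hresmul, himsmul, map_add, map_sub, map_smul, smul_eq_mul]
        apply Complex.ext
        · simp; ring
        · simp; ring }
    (P (ContinuousMap.const I 1)) (by
      intro f
      rw [ContinuousMap.norm_le _ (mul_nonneg hPnn (norm_nonneg f))]
      intro t
      exact (hwbd f t).trans (hnrm f))
  have hW : ∀ f t, W f t = w f t := fun f t => rfl
  have hWc : IsWeaklyCompactOp ℂ W := by
    refine isWeaklyCompactOp_of_dom W P hP fun f => ?_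
    have h0 : 0 ≤ P (nrm f) := hP _ (fun x => norm_nonneg (f x))
    rw [ContinuousMap.norm_le _ h0]
    intro t
    rw [hW]
    exact hwbd f t
  refine (wEssNorm_le T W hWc).trans ?_
  refine ContinuousLinearMap.opNorm_le_bound _ (by positivity) fun f => ?_
  rw [ContinuousMap.norm_le _ (by positivity)]
  intro t
  set a : Du I := rhoRe (adj ℂ T (ev ℂ t)) - k1 t with ha
  set b : Du I := rhoIm (adj ℂ T (ev ℂ t)) - k2 t with hb
  have hTf : T f t = (((rhoRe (adj ℂ T (ev ℂ t)) (reC f) - rhoIm (adj ℂ T (ev ℂ t)) (imC f) : ℝ)) : ℂ)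
      + Complex.I * (((rhoIm (adj ℂ T (ev ℂ t)) (reC f) + rhoRe (adj ℂ T (ev ℂ t)) (imC f) : ℝ)) : ℂ) := by
    have e1 : f = ofC (reC f) + Complex.I • ofC (imC f) := by
      ext x
      show f x = ((f x).re : ℂ) + Complex.I * ((f x).im : ℂ)
      rw [mul_comm]
      exact (Complex.re_add_im (f x)).symm
    have e2 : T f t = T (ofC (reC f)) t + Complex.I * T (ofC (imC f)) t := by
      conv_lhs => rw [e1, map_add, map_smul]
      rfl
    rw [e2]
    simp only [rhoRe_apply, rhoIm_apply, adj_apply, ev_apply]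
    apply Complex.ext
    · simp
      ring
    · simp
  have e : (T - W) f t = (((a (reC f) : ℝ) : ℂ) + Complex.I * ((a (imC f) : ℝ) : ℂ)) +
      Complex.I * (((b (reC f) : ℝ) : ℂ) + Complex.I * ((b (imC f) : ℝ) : ℂ)) := by
    have e3 : (T - W) f t = T f t - w f t := rfl
    rw [e3, hTf]
    simp only [w, ha, hb, sub_apply]
    apply Complex.ext
    · simp; ring
    · simp; ring
  rw [e]
  refine (norm_add_le _ _).trans ?_
  rw [norm_mul, Complex.norm_I, one_mul]
  have c1 := complexify_bound a f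
  have c2 := complexify_bound b f
  have d1 := mul_le_mul_of_nonneg_right (hk1'' t) (norm_nonneg f)
  have d2 := mul_le_mul_of_nonneg_right (hk2'' t) (norm_nonneg f)
  have e5 : (4 * ‖adj ℂ T - V‖ + ε0) * ‖f‖ = (2 * (‖adj ℂ T - V‖ + ε) + ε) * ‖f‖ +
    (2 * (‖adj ℂ T - V‖ + ε) + ε) * ‖f‖ := by rw [hε]; ring
  rw [e5]
  exact add_le_add (c1.trans d1) (c2.trans d2)

end R268.WE
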