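import Pool.Agent.R268.WE.Sel

/-!
A gliding hump argument (a form of the Schur property).
-/

namespace R268.WE

open Set Filter Topology

/-- Every sequence in the family `h` has a weak cluster point. -/
def WC {M : Type*} [NormedAddCommGroup M] [NormedSpace ℝ M] {X : Type*} (h : X → M) : Prop :=
  ∀ x : ℕ → X, ∃ h0 : M, ∀ (s : Finset (M →L[ℝ] ℝ)) (e : ℝ), 0 < e →
    ∃ᶠ n in atTop, ∀ G ∈ s, |G (h (x n)) - G h0| < e

theorem sum_subseq (a : ℕ → ℝ) (ha : ∀ i, 0 ≤ a i) (u : ℕ → ℕ) (hu : StrictMono u) (l m : ℕ) :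
    ∑ j ∈ Finset.Ico l m, a (u j) ≤ ∑ i ∈ Finset.Ico (u l) (u m), a i := by
  rw [← Finset.sum_image (f := a) (g := u) (s := Finset.Ico l m)
    (fun x _ y _ hxy => hu.injective hxy)]
  apply Finset.sum_le_sum_of_subset_of_nonneg
  · intro i hi
    rw [Finset.mem_image] at hi
    obtain ⟨j, hj, rfl⟩ := hi
    rw [Finset.mem_Ico] at hj ⊢
    exact ⟨hu.monotone hj.1, hu hj.2⟩
  · intro i _ _
    exact ha i

theorem geom_bound (m : ℕ) : ∑ j ∈ Finset.range m, (1 / 2 : ℝ) ^ j ≤ 2 := by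
  have h := (summable_geometric_two).sum_le_tsum (Finset.range m) (fun i _ => by positivity)
  rw [tsum_geometric_two] at h
  exact h

theorem hump {M : Type*} [NormedAddCommGroup M] [NormedSpace ℝ M] (h : ℕ → M)
    (G : ℕ → (M →L[ℝ] ℝ)) (hG : ∀ (φ : M) (N : ℕ), ∑ i ∈ Finset.range N, |G i φ| ≤ ‖φ‖)
    (ε : ℝ) (hε : 0 < ε) (hge : ∀ n, ε ≤ |G n (h n)|) (wc : WC h) : False := by
  classical
  have hsum : ∀ φ : M, Summable fun i => |G i φ| := fun φ =>
    summable_of_sum_range_le (fun i => abs_nonneg _) (hG φ)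
  have htail : ∀ (φ : M) (e : ℝ), 0 < e → ∃ N, ∀ b, N ≤ b → ∀ m, ∑ i ∈ Finset.Ico b m, |G i φ| ≤ e := by
    intro φ e he
    have h1 := (hsum φ).tsum_vanishing
      (e := Metric.closedBall (0:ℝ) e) (Metric.closedBall_mem_nhds _ he)
    have h2 := (summable_iff_cauchySeq_finset.mp (hsum φ))
    obtain ⟨s, hs⟩ := (summable_iff_vanishing.mp (hsum φ)) (Metric.closedBall (0:ℝ) e)
      (Metric.closedBall_mem_nhds _ he)
    refine ⟨s.sup id + 1, fun b hb m => ?_⟩
    have hd : Disjoint (Finset.Ico b m) s := by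
      rw [Finset.disjoint_left]
      intro i hi his
      rw [Finset.mem_Ico] at hi
      have : i ≤ s.sup id := Finset.le_sup (f := id) his
      omega
    have := hs (Finset.Ico b m) hd
    rw [mem_closedBall_zero_iff, Real.norm_eq_abs] at this
    exact (le_abs_self _).trans this
  obtain ⟨h0, hh0⟩ := wc id
  obtain ⟨N0, hN0⟩ := htail h0 (ε / 8) (by positivity)
  let r : ℕ → ℕ → Prop := fun a b => a < b ∧ |G a (h b) - G a h0| < ε * (1 / 2) ^ (a + 4) ∧
    ∀ m, ∑ i ∈ Finset.Ico b m, |G i (h a)| ≤ ε / 8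
  obtain ⟨u, hu1, hu2⟩ := exists_seq_of_forall_finset_exists (fun a : ℕ => N0 ≤ a) r (by
    intro s _
    have f1 := hh0 (s.image G) (ε * (1 / 2) ^ (s.sup id + 4)) (by positivity)
    have e1 : ∀ᶠ b in atTop, ∀ a ∈ s, (a < b ∧ ∀ m, ∑ i ∈ Finset.Ico b m, |G i (h a)| ≤ ε / 8) := by
      rw [Filter.eventually_all_finset]
      intro a _
      obtain ⟨N, hN⟩ := htail (h a) (ε / 8) (by positivity)
      filter_upwards [eventually_gt_atTop a, eventually_ge_atTop N] with b h1 h2
      exact ⟨h1, hN b h2⟩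
    obtain ⟨b, hb1, hb2, hb3⟩ := (f1.and_eventually (e1.and (eventually_ge_atTop N0))).exists
    refine ⟨b, hb3, fun a ha => ⟨(hb2 a ha).1, ?_, (hb2 a ha).2⟩⟩
    have := hb1 (G a) (Finset.mem_image_of_mem G ha)
    refine lt_of_lt_of_le this ?_
    apply mul_le_mul_of_nonneg_left _ hε.le
    apply pow_le_pow_of_le_one (by norm_num) (by norm_num)
    have : a ≤ s.sup id := Finset.le_sup (f := id) ha
    omega)
  have hmono : StrictMono u := fun a b hab => (hu2 a b hab).1
  obtain ⟨h1, hh1⟩ := wc u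
  -- signs
  let σ : ℕ → ℝ := fun l => if 0 ≤ G (u l) (h (u l)) then 1 else -1
  have hσ : ∀ l, |σ l| = 1 := by
    intro l; simp only [σ]; split_ifs <;> simp
  have hσ2 : ∀ l, σ l * G (u l) (h (u l)) = |G (u l) (h (u l))| := by
    intro l; simp only [σ]; split_ifs with hs
    · rw [one_mul, abs_of_nonneg hs]
    · rw [abs_of_neg (not_le.mp hs)]; ring
  let Gm : ℕ → (M →L[ℝ] ℝ) := fun m => ∑ j ∈ Finset.range m, σ j • G (u j)
  have hGm : ∀ m φ, Gm m φ = ∑ j ∈ Finset.range m, σ j * G (u j) φ := by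
    intro m φ
    simp only [Gm, sum_apply, smul_apply, smul_eq_mul]
  have hsub : ∀ (φ : M) (l m : ℕ), ∑ j ∈ Finset.Ico l m, |G (u j) φ| ≤
      ∑ i ∈ Finset.Ico (u l) (u m), |G i φ| := fun φ l m =>
    sum_subseq (fun i => |G i φ|) (fun i => abs_nonneg _) u hmono l m
  have hGmn : ∀ m, ‖Gm m‖ ≤ 1 := by
    intro m
    refine ContinuousLinearMap.opNorm_le_bound _ zero_le_one fun φ => ?_
    rw [one_mul, hGm, Real.norm_eq_abs]
    calc |∑ j ∈ Finset.range m, σ j * G (u j) φ| ≤ ∑ j ∈ Finset.range m, |σ j * G (u j) φ| :=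
          Finset.abs_sum_le_sum_abs _ _
      _ = ∑ j ∈ Finset.Ico 0 m, |G (u j) φ| := by
          rw [Finset.range_eq_Ico]
          refine Finset.sum_congr rfl fun j _ => ?_
          rw [abs_mul, hσ, one_mul]
      _ ≤ ∑ i ∈ Finset.Ico (u 0) (u m), |G i φ| := hsub φ 0 m
      _ ≤ ∑ i ∈ Finset.range (u m), |G i φ| := by
          apply Finset.sum_le_sum_of_subset_of_nonneg
          · intro i hi
            rw [Finset.mem_Ico] at hi
            exact Finset.mem_range.mpr hi.2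
          · intro i _ _; exact abs_nonneg _
      _ ≤ ‖φ‖ := hG φ _
  have hgeo : ∀ s : Finset ℕ, ∑ j ∈ s, ε * (1 / 2 : ℝ) ^ (u j + 4) ≤ ε / 8 := by
    intro s
    have a1 : ∀ j, ε * (1 / 2 : ℝ) ^ (u j + 4) ≤ ε / 16 * (1 / 2) ^ j := by
      intro j
      have : (1 / 2 : ℝ) ^ (u j + 4) ≤ (1 / 2) ^ (j + 4) := by
        apply pow_le_pow_of_le_one (by norm_num) (by norm_num)
        have := hmono.le_apply (x := j)
        omega
      rw [pow_add (1/2 : ℝ) j 4] at this
      have := mul_le_mul_of_nonneg_left this hε.le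
      norm_num at this ⊢
      linarith
    have a2 : ∑ j ∈ s, (1 / 2 : ℝ) ^ j ≤ 2 := by
      have h := (summable_geometric_two).sum_le_tsum s (fun i _ => by positivity)
      rw [tsum_geometric_two] at h
      exact h
    calc ∑ j ∈ s, ε * (1 / 2 : ℝ) ^ (u j + 4) ≤ ∑ j ∈ s, ε / 16 * (1 / 2) ^ j :=
          Finset.sum_le_sum fun j _ => a1 j
      _ = ε / 16 * ∑ j ∈ s, (1 / 2 : ℝ) ^ j := by rw [Finset.mul_sum]
      _ ≤ ε / 16 * 2 := mul_le_mul_of_nonneg_left a2 (by positivity)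
      _ = ε / 8 := by ring
  have hh0sum : ∀ l m, ∑ j ∈ Finset.Ico l m, |G (u j) h0| ≤ ε / 8 := fun l m =>
    (hsub h0 l m).trans (hN0 _ (hu1 l) _)
  -- the limit functional
  let U : Ultrafilter ℕ := Filter.hyperfilter ℕ
  have hU : ∀ j : ℕ, ∀ᶠ n in (U : Filter ℕ), j ≤ n := by
    intro j
    have : (U : Filter ℕ) ≤ atTop := by
      rw [← Nat.cofinite_eq_atTop]
      exact Filter.hyperfilter_le_cofinite
    exact this (eventually_ge_atTop j)
  obtain ⟨Ψ, _, hΨ⟩ := ultra_lim U Gm 1 hGmn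
  have est1 : ∀ l, 5 * ε / 8 ≤ Ψ (h (u l)) := by
    intro l
    refine ge_of_tendsto (hΨ (h (u l))) ?_
    filter_upwards [hU (l + 1)] with m hm
    rw [hGm]
    have hsplit : ∑ j ∈ Finset.range m, σ j * G (u j) (h (u l)) =
        ∑ j ∈ Finset.range l, σ j * G (u j) (h (u l)) + σ l * G (u l) (h (u l)) +
        ∑ j ∈ Finset.Ico (l + 1) m, σ j * G (u j) (h (u l)) := by
      rw [← Finset.sum_range_succ, Finset.range_eq_Ico, Finset.range_eq_Ico,
        Finset.sum_Ico_consecutive _ (Nat.zero_le _) hm]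
    rw [hsplit, hσ2]
    have t1 : |∑ j ∈ Finset.range l, σ j * G (u j) (h (u l))| ≤ ε / 8 + ε / 8 := by
      calc |∑ j ∈ Finset.range l, σ j * G (u j) (h (u l))|
          ≤ ∑ j ∈ Finset.range l, |σ j * G (u j) (h (u l))| := Finset.abs_sum_le_sum_abs _ _
        _ ≤ ∑ j ∈ Finset.range l, (|G (u j) h0| + ε * (1 / 2) ^ (u j + 4)) := by
            refine Finset.sum_le_sum fun j hj => ?_
            rw [abs_mul, hσ, one_mul]
            have := (hu2 j l (Finset.mem_range.mp hj)).2.1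
            have h3 := abs_sub_abs_le_abs_sub (G (u j) (h (u l))) (G (u j) h0)
            linarith
        _ ≤ ε / 8 + ε / 8 := by
            rw [Finset.sum_add_distrib]
            have := hh0sum 0 l
            rw [← Finset.range_eq_Ico] at this
            linarith [hgeo (Finset.range l)]
    have t2 : |∑ j ∈ Finset.Ico (l + 1) m, σ j * G (u j) (h (u l))| ≤ ε / 8 := by
      calc |∑ j ∈ Finset.Ico (l + 1) m, σ j * G (u j) (h (u l))|
          ≤ ∑ j ∈ Finset.Ico (l + 1) m, |σ j * G (u j) (h (u l))| :=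
            Finset.abs_sum_le_sum_abs _ _
        _ = ∑ j ∈ Finset.Ico (l + 1) m, |G (u j) (h (u l))| := by
            refine Finset.sum_congr rfl fun j _ => ?_
            rw [abs_mul, hσ, one_mul]
        _ ≤ ∑ i ∈ Finset.Ico (u (l + 1)) (u m), |G i (h (u l))| := hsub _ _ _
        _ ≤ ε / 8 := (hu2 l (l + 1) (Nat.lt_succ_self l)).2.2 _
    rw [abs_le] at t1 t2
    linarith [hge (u l), t1.1, t2.1]
  have est2 : 9 * ε / 16 ≤ Ψ h1 := by
    have := hh1 {Ψ} (ε / 16) (by positivity)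
    obtain ⟨l, hl⟩ := this.exists
    have := hl Ψ (Finset.mem_singleton_self _)
    rw [abs_lt] at this
    linarith [est1 l, this.2]
  have est3 : ∀ j, |G (u j) h1| ≤ |G (u j) h0| + ε * (1 / 2) ^ (u j + 4) := by
    intro j
    apply le_of_forall_pos_le_add
    intro e he
    have := hh1 {G (u j)} e he
    obtain ⟨l, hl1, hl2⟩ := (this.and_eventually (eventually_gt_atTop j)).exists
    have k1 := hl1 (G (u j)) (Finset.mem_singleton_self _)
    have k2 := (hu2 j l hl2).2.1
    rw [abs_sub_comm] at k1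
    have k3 := abs_sub_abs_le_abs_sub (G (u j) h1) (G (u j) (h (u l)))
    have k4 := abs_sub_abs_le_abs_sub (G (u j) (h (u l))) (G (u j) h0)
    linarith
  have est4 : Ψ h1 ≤ ε / 4 := by
    refine le_of_tendsto (hΨ h1) (Eventually.of_forall fun m => ?_)
    rw [hGm]
    calc ∑ j ∈ Finset.range m, σ j * G (u j) h1
        ≤ ∑ j ∈ Finset.range m, (|G (u j) h0| + ε * (1 / 2) ^ (u j + 4)) := by
          refine Finset.sum_le_sum fun j _ => ?_
          have := le_abs_self (σ j * G (u j) h1)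
          rw [abs_mul, hσ, one_mul] at this
          exact this.trans (est3 j)
      _ ≤ ε / 4 := by
          rw [Finset.sum_add_distrib]
          have := hh0sum 0 m
          rw [← Finset.range_eq_Ico] at this
          linarith [hgeo (Finset.range m)]
  linarith

end R268.WE
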