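import Pool.Agent.R268.WE.Sand

/-!
Approximate Radon-Nikodym representation of a functional between `-Q2` and `Q1`, by finite
dimensional separation.
-/

namespace R268.WE

open Set Filter Topology

variable {L : Type*} [TopologicalSpace L] [CompactSpace L]

/-- pairs of continuous functions with `τ, τ' ≥ 0`, `τ + τ' ≤ 1`. -/
def TT (L : Type*) [TopologicalSpace L] : Set (C(L, ℝ) × C(L, ℝ)) :=
  {z | (∀ x, 0 ≤ z.1 x) ∧ (∀ x, 0 ≤ z.2 x) ∧ ∀ x, z.1 x + z.2 x ≤ 1}

theorem rn_approx {ι : Type*} [Fintype ι] (Q1 Q2 ψ : Du L) (hQ1 : Pos Q1) (hQ2 : Pos Q2)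
    (h1 : ∀ g, 0 ≤ g → ψ g ≤ Q1 g) (h2 : ∀ g, 0 ≤ g → -(ψ g) ≤ Q2 g)
    (f : ι → C(L, ℝ)) (ε : ℝ) (hε : 0 < ε) :
    ∃ τ τ' : C(L, ℝ), (∀ x, 0 ≤ τ x) ∧ (∀ x, 0 ≤ τ' x) ∧ (∀ x, τ x + τ' x ≤ 1) ∧
      (∀ i, |Q1 (τ * f i) - Q2 (τ' * f i) - ψ (f i)| < ε) ∧ Q1 τ + Q2 τ' < ‖ψ‖ + ε := by
  classical
  let S : Set ((ι → ℝ) × ℝ) := {a | ∃ z ∈ TT L, (∀ i, a.1 i = Q1 (z.1 * f i) - Q2 (z.2 * f i)) ∧
    Q1 z.1 + Q2 z.2 ≤ a.2}
  have hSconv : Convex ℝ S := by
    rintro a ⟨z, ⟨hz1, hz2, hz3⟩, ha1, ha2⟩ a' ⟨z', ⟨hz1', hz2', hz3'⟩, ha1', ha2'⟩ s t hs ht hst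
    refine ⟨s • z + t • z', ⟨?_, ?_, ?_⟩, ?_, ?_⟩
    · intro x
      simp only [Prod.fst_add, Prod.smul_fst, ContinuousMap.add_apply, ContinuousMap.smul_apply,
        smul_eq_mul]
      exact add_nonneg (mul_nonneg hs (hz1 x)) (mul_nonneg ht (hz1' x))
    · intro x
      simp only [Prod.snd_add, Prod.smul_snd, ContinuousMap.add_apply, ContinuousMap.smul_apply,
        smul_eq_mul]
      exact add_nonneg (mul_nonneg hs (hz2 x)) (mul_nonneg ht (hz2' x))
    · intro x
      simp only [Prod.snd_add, Prod.smul_snd, Prod.fst_add, Prod.smul_fst, ContinuousMap.add_apply,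
        ContinuousMap.smul_apply, smul_eq_mul]
      have k1 := mul_le_mul_of_nonneg_left (hz3 x) hs
      have k2 := mul_le_mul_of_nonneg_left (hz3' x) ht
      nlinarith
    · intro i
      simp only [Prod.fst_add, Prod.smul_fst, Prod.snd_add, Prod.smul_snd, Pi.add_apply,
        Pi.smul_apply, smul_eq_mul, add_mul, smul_mul_assoc, map_add, map_smul, ha1 i, ha1' i]
      ring
    · simp only [Prod.fst_add, Prod.smul_fst, Prod.snd_add, Prod.smul_snd,
        smul_eq_mul, map_add, map_smul]
      have k1 := mul_le_mul_of_nonneg_left ha2 hs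
      have k2 := mul_le_mul_of_nonneg_left ha2' ht
      nlinarith
  let p : (ι → ℝ) × ℝ := (fun i => ψ (f i), ‖ψ‖)
  by_cases hp : p ∈ closure S
  · rw [Metric.mem_closure_iff] at hp
    obtain ⟨a, ⟨z, ⟨hz1, hz2, hz3⟩, ha1, ha2⟩, hd⟩ := hp ε hε
    refine ⟨z.1, z.2, hz1, hz2, hz3, ?_, ?_⟩
    · intro i
      rw [← ha1 i]
      have k1 : dist p.1 a.1 < ε := lt_of_le_of_lt (le_max_left _ _) hd
      have k2 : dist (p.1 i) (a.1 i) < ε := lt_of_le_of_lt (dist_le_pi_dist _ _ i) k1
      rw [dist_comm, Real.dist_eq] at k2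
      exact k2
    · have k1 : dist p.2 a.2 < ε := lt_of_le_of_lt (le_max_right _ _) hd
      rw [Real.dist_eq, abs_lt] at k1
      have : p.2 = ‖ψ‖ := rfl
      rw [this] at k1
      linarith [k1.1]
  · exfalso
    obtain ⟨ℓ, u, hℓ1, hℓ2⟩ := geometric_hahn_banach_closed_point hSconv.closure isClosed_closure hp
    have hS : ∀ a ∈ S, ℓ a < u := fun a ha => hℓ1 a (subset_closure ha)
    let c : ι → ℝ := fun i => ℓ (Pi.single i 1, 0)
    let lam : ℝ := -ℓ (0, 1)
    have hℓ : ∀ (x : ι → ℝ) (y : ℝ), ℓ (x, y) = ∑ i, x i * c i - y * lam := by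
      intro x y
      have e1 : ((x, y) : (ι → ℝ) × ℝ) = ∑ i, x i • ((Pi.single i 1, 0) : (ι → ℝ) × ℝ) +
          y • ((0, 1) : (ι → ℝ) × ℝ) := by
        ext j
        · simp [Finset.sum_apply, Pi.single_apply, Prod.fst_sum]
        · simp [Prod.snd_sum]
      rw [e1, map_add, map_sum, map_smul]
      simp only [map_smul, smul_eq_mul]
      have : ∑ i, x i * ℓ (Pi.single i 1, 0) = ∑ i, x i * c i := rfl
      rw [this]
      show _ + y * ℓ (0, 1) = _ - y * (-ℓ (0, 1))
      ring
    have hlam : 0 ≤ lam := by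
      by_contra hneg
      push Not at hneg
      have hu : ∀ y : ℝ, 0 ≤ y → -(y * lam) < u := by
        intro y hy
        have := hS (0, y) ⟨(0, 0), ⟨by intro x; simp, by intro x; simp, by intro x; simp⟩,
          by intro i; simp, by simpa using hy⟩
        rw [hℓ] at this
        simpa using this
      have := hu (|u| / (-lam)) (div_nonneg (abs_nonneg _) (by linarith))
      have hl : -lam ≠ 0 := by linarith
      have e : -(|u| / (-lam) * lam) = |u| := by
        have : -(|u| / (-lam) * lam) = |u| / (-lam) * (-lam) := by ring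
        rw [this, div_mul_cancel₀ _ hl]
      rw [e] at this
      linarith [le_abs_self u]
    let F : C(L, ℝ) := ∑ i, c i • f i
    have hF : ∀ (Q : Du L) (τ : C(L, ℝ)), ∑ i, Q (τ * f i) * c i = Q (τ * F) := by
      intro Q τ
      show _ = Q (τ * ∑ i, c i • f i)
      rw [Finset.mul_sum, map_sum]
      refine Finset.sum_congr rfl fun i _ => ?_
      rw [mul_smul_comm, map_smul, smul_eq_mul, mul_comm]
    have hF' : ∑ i, ψ (f i) * c i = ψ F := by
      show _ = ψ (∑ i, c i • f i)
      rw [map_sum]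
      refine Finset.sum_congr rfl fun i _ => ?_
      rw [map_smul, smul_eq_mul, mul_comm]
    have hgap : u < ψ F - ‖ψ‖ * lam := by
      have : ℓ p = ψ F - ‖ψ‖ * lam := by
        show ℓ (fun i => ψ (f i), ‖ψ‖) = _
        rw [hℓ, hF']
      rw [← this]; exact hℓ2
    have hS2 : ∀ z ∈ TT L, Q1 (z.1 * F) - Q2 (z.2 * F) - (Q1 z.1 + Q2 z.2) * lam < u := by
      intro z hz
      have := hS (fun i => Q1 (z.1 * f i) - Q2 (z.2 * f i), Q1 z.1 + Q2 z.2)
        ⟨z, hz, fun i => rfl, le_refl _⟩
      rw [hℓ] at this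
      have e : ∑ i, (Q1 (z.1 * f i) - Q2 (z.2 * f i)) * c i = Q1 (z.1 * F) - Q2 (z.2 * F) := by
        simp only [sub_mul, Finset.sum_sub_distrib]
        rw [hF, hF]
      simp only [e] at this
      exact this
    -- positive parts
    let G1 : C(L, ℝ) := ⟨fun x => max (F x - lam) 0, by fun_prop⟩
    let G2 : C(L, ℝ) := ⟨fun x => max (-F x - lam) 0, by fun_prop⟩
    let cl : C(L, ℝ) := F - G1 + G2
    have hG1 : ∀ x, G1 x = max (F x - lam) 0 := fun x => rfl
    have hG2 : ∀ x, G2 x = max (-F x - lam) 0 := fun x => rfl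
    have hcl : ‖cl‖ ≤ lam := by
      rw [ContinuousMap.norm_le _ hlam]
      intro x
      show |F x - G1 x + G2 x| ≤ lam
      rw [hG1, hG2, _root_.abs_le]
      rcases le_total (F x - lam) 0 with ha | ha <;> rcases le_total (-F x - lam) 0 with hb | hb
      · rw [max_eq_right ha, max_eq_right hb]; constructor <;> linarith
      · rw [max_eq_right ha, max_eq_left hb]; constructor <;> linarith
      · rw [max_eq_left ha, max_eq_right hb]; constructor <;> linarith
      · rw [max_eq_left ha, max_eq_left hb]; constructor <;> linarith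
    have hup : ψ F - ‖ψ‖ * lam ≤ Q1 G1 + Q2 G2 := by
      have k1 : ψ cl ≤ ‖ψ‖ * lam := (le_norm_mul ψ cl).trans
        (mul_le_mul_of_nonneg_left hcl (norm_nonneg ψ))
      have k2 : ψ cl = ψ F - ψ G1 + ψ G2 := by
        show ψ (F - G1 + G2) = _
        rw [map_add, map_sub]
      have k3 := h1 G1 (fun x => le_max_right _ _)
      have k4 := h2 G2 (fun x => le_max_right _ _)
      linarith
    -- test pairs
    have hn : ∀ n : ℕ, 0 < n → Q1 G1 + Q2 G2 - (Q1 (ContinuousMap.const L 1) +
        Q2 (ContinuousMap.const L 1)) / n < u := by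
      intro n hn
      have hn' : (0:ℝ) < n := by exact_mod_cast hn
      let t1 : C(L, ℝ) := ⟨fun x => min 1 (n * G1 x), by fun_prop⟩
      let t2 : C(L, ℝ) := ⟨fun x => min 1 (n * G2 x), by fun_prop⟩
      have ht1 : ∀ x, t1 x = min 1 (n * G1 x) := fun x => rfl
      have ht2 : ∀ x, t2 x = min 1 (n * G2 x) := fun x => rfl
      have g1 : ∀ x, 0 ≤ G1 x := fun x => le_max_right _ _
      have g2 : ∀ x, 0 ≤ G2 x := fun x => le_max_right _ _
      have hdisj : ∀ x, G1 x = 0 ∨ G2 x = 0 := by
        intro x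
        rcases le_total (F x) 0 with h | h
        · left; rw [hG1]; exact max_eq_right (by linarith)
        · right; rw [hG2]; exact max_eq_right (by linarith)
      have hz : (t1, t2) ∈ TT L := by
        refine ⟨fun x => ?_, fun x => ?_, fun x => ?_⟩
        · show 0 ≤ t1 x
          rw [ht1]; exact le_min zero_le_one (mul_nonneg hn'.le (g1 x))
        · show 0 ≤ t2 x
          rw [ht2]; exact le_min zero_le_one (mul_nonneg hn'.le (g2 x))
        · show t1 x + t2 x ≤ 1
          rw [ht1, ht2]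
          rcases hdisj x with h | h
          · rw [h, mul_zero, min_eq_right zero_le_one, zero_add]; exact min_le_left _ _
          · rw [h, mul_zero, min_eq_right (zero_le_one (α := ℝ)), add_zero]; exact min_le_left _ _
      have := hS2 _ hz
      simp only at this
      have key : ∀ a b : ℝ, 0 ≤ a → (b = a ∨ a = 0) → a - 1 / n ≤ min 1 (n * a) * b := by
        intro a b ha hab
        rcases hab with rfl | rfl
        · rcases le_total 1 (n * b) with h | h
          · rw [min_eq_left h, one_mul]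
            linarith [show 0 ≤ 1 / (n:ℝ) by positivity]
          · rw [min_eq_right h]
            have : b ≤ 1 / n := by
              rw [le_div_iff₀ hn']; linarith
            have h3 : 0 ≤ (n:ℝ) * b * b := by positivity
            linarith
        · rw [mul_zero, min_eq_right zero_le_one, zero_mul]
          have : 0 ≤ 1 / (n:ℝ) := by positivity
          linarith
      have k1 : Q1 G1 - Q1 (ContinuousMap.const L 1) / n ≤ Q1 (t1 * F) - Q1 t1 * lam := by
        have e1 : Q1 G1 - Q1 (ContinuousMap.const L 1) / n =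
            Q1 (G1 - (1 / (n:ℝ)) • ContinuousMap.const L 1) := by
          rw [map_sub, map_smul, smul_eq_mul]; ring
        have e2 : Q1 (t1 * F) - Q1 t1 * lam = Q1 (t1 * F - lam • t1) := by
          rw [map_sub, map_smul, smul_eq_mul]; ring
        rw [e1, e2]
        apply hQ1.mono
        intro x
        show G1 x - (1 / (n:ℝ)) * 1 ≤ t1 x * F x - lam * t1 x
        have := key (G1 x) (F x - lam) (g1 x) (by
          rw [hG1]
          rcases le_total (F x - lam) 0 with h | h
          · right; exact max_eq_right h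
          · left; exact (max_eq_left h).symm)
        rw [← ht1] at this
        linarith
      have k2 : Q2 G2 - Q2 (ContinuousMap.const L 1) / n ≤ - Q2 (t2 * F) - Q2 t2 * lam := by
        have e1 : Q2 G2 - Q2 (ContinuousMap.const L 1) / n =
            Q2 (G2 - (1 / (n:ℝ)) • ContinuousMap.const L 1) := by
          rw [map_sub, map_smul, smul_eq_mul]; ring
        have e2 : -Q2 (t2 * F) - Q2 t2 * lam = Q2 (-(t2 * F) - lam • t2) := by
          rw [map_sub, map_smul, map_neg, smul_eq_mul]; ring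
        rw [e1, e2]
        apply hQ2.mono
        intro x
        show G2 x - (1 / (n:ℝ)) * 1 ≤ -(t2 x * F x) - lam * t2 x
        have := key (G2 x) (-F x - lam) (g2 x) (by
          rw [hG2]
          rcases le_total (-F x - lam) 0 with h | h
          · right; exact max_eq_right h
          · left; exact (max_eq_left h).symm)
        rw [← ht2] at this
        linarith
      have e3 : (Q1 (ContinuousMap.const L 1) + Q2 (ContinuousMap.const L 1)) / (n:ℝ) =
        Q1 (ContinuousMap.const L 1) / n + Q2 (ContinuousMap.const L 1) / n := by ring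
      rw [e3]
      linarith
    -- conclude
    have hlt : u < Q1 G1 + Q2 G2 := lt_of_lt_of_le hgap hup
    set K := Q1 (ContinuousMap.const L 1) + Q2 (ContinuousMap.const L 1) with hK
    obtain ⟨n, hn1⟩ := exists_nat_gt (|K| / (Q1 G1 + Q2 G2 - u))
    have hpos : 0 < Q1 G1 + Q2 G2 - u := by linarith
    have hn0 : (0:ℝ) < n := lt_of_le_of_lt (div_nonneg (abs_nonneg _) hpos.le) hn1
    have := hn n (by exact_mod_cast hn0)
    rw [div_lt_iff₀ hpos] at hn1
    have h5 : K / n < Q1 G1 + Q2 G2 - u := by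
      rw [div_lt_iff₀ hn0]
      linarith [le_abs_self K]
    linarith

end R268.WE
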