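import Mathlib

/-!
Decomposition of dominated functionals (Hahn-Banach), projections onto order intervals in the
dual of `C(L)`.
-/

namespace R268.WE

open Set Filter Topology

section Sandwich

variable {E : Type*} [AddCommGroup E] [Module ℝ E]

/-- If a linear functional is dominated by the sum of two sublinear functionals then it is the sum of
two linear functionals dominated by these. -/
theorem sandwich (μ : E →ₗ[ℝ] ℝ) (p q : E → ℝ)
    (p_hom : ∀ c : ℝ, 0 < c → ∀ x, p (c • x) = c * p x) (p_add : ∀ x y, p (x + y) ≤ p x + p y)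
    (q_hom : ∀ c : ℝ, 0 < c → ∀ x, q (c • x) = c * q x) (q_add : ∀ x y, q (x + y) ≤ q x + q y)
    (h : ∀ x, μ x ≤ p x + q x) :
    ∃ b e : E →ₗ[ℝ] ℝ, (∀ x, μ x = b x + e x) ∧ (∀ x, b x ≤ p x) ∧ (∀ x, e x ≤ q x) := by
  have p0 : p 0 = 0 := by
    have := p_hom 2 (by norm_num) 0
    rw [smul_zero] at this; linarith
  have q0 : q 0 = 0 := by
    have := q_hom 2 (by norm_num) 0
    rw [smul_zero] at this; linarith
  let D : Submodule ℝ (E × E) := LinearMap.eqLocus (LinearMap.fst ℝ E E) (LinearMap.snd ℝ E E)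
  let f : (E × E) →ₗ.[ℝ] ℝ := ⟨D, (μ ∘ₗ LinearMap.fst ℝ E E) ∘ₗ D.subtype⟩
  obtain ⟨g, hg1, hg2⟩ := exists_extension_of_le_sublinear f (fun z => p z.1 + q z.2)
    (by
      intro c hc x
      simp only [Prod.smul_fst, Prod.smul_snd, p_hom c hc, q_hom c hc]
      ring)
    (by
      intro x y
      simp only [Prod.fst_add, Prod.snd_add]
      linarith [p_add x.1 y.1, q_add x.2 y.2])
    (by
      intro x
      have hx : (x : E × E).1 = (x : E × E).2 := x.2
      have h1 : f x = μ (x : E × E).1 := rfl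
      rw [h1]
      show μ (x : E × E).1 ≤ p (x : E × E).1 + q (x : E × E).2
      rw [← hx]
      exact h _)
  refine ⟨g ∘ₗ LinearMap.inl ℝ E E, g ∘ₗ LinearMap.inr ℝ E E, ?_, ?_, ?_⟩
  · intro x
    have hx : ((x, x) : E × E) ∈ D := by
      show (x, x).1 = (x, x).2
      rfl
    have h1 := hg1 ⟨(x, x), hx⟩
    have h2 : f ⟨(x, x), hx⟩ = μ x := rfl
    rw [h2] at h1
    simp only [LinearMap.comp_apply, LinearMap.inl_apply, LinearMap.inr_apply]
    rw [← map_add, Prod.mk_add_mk, add_zero, zero_add]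
    exact h1.symm
  · intro x
    have := hg2 (x, 0)
    simp only [LinearMap.comp_apply, LinearMap.inl_apply]
    simp only [q0, add_zero] at this
    exact this
  · intro x
    have := hg2 (0, x)
    simp only [LinearMap.comp_apply, LinearMap.inr_apply]
    simp only [p0, zero_add] at this
    exact this

end Sandwich

variable {L : Type*} [TopologicalSpace L] [CompactSpace L]

/-- the dual of a normed space -/
abbrev DualN (E : Type*) [NormedAddCommGroup E] [NormedSpace ℝ E] : Type _ := E →L[ℝ] ℝ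

/-- the dual of `C(L)` -/
abbrev Du (L : Type*) [TopologicalSpace L] [CompactSpace L] : Type _ := DualN C(L, ℝ)

/-- positive functional -/
def Pos (P : Du L) : Prop := ∀ f : C(L, ℝ), 0 ≤ f → 0 ≤ P f

theorem Pos.mono {P : Du L} (hP : Pos P) {f g : C(L, ℝ)} (h : f ≤ g) : P f ≤ P g := by
  have := hP (g - f) (sub_nonneg.mpr h)
  rw [map_sub] at this
  linarith

theorem abs_le_norm_const (f : C(L, ℝ)) : |f| ≤ ContinuousMap.const L ‖f‖ := by
  intro x
  exact f.norm_coe_le_norm x

omit [CompactSpace L] in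
theorem neg_abs_le' (f : C(L, ℝ)) : -|f| ≤ f := by
  intro x
  exact _root_.neg_abs_le (f x)

theorem Pos.abs_le {P : Du L} (hP : Pos P) (f : C(L, ℝ)) : |P f| ≤ P |f| := by
  rw [_root_.abs_le]
  constructor
  · have := hP.mono (neg_abs_le' f)
    rw [map_neg] at this
    exact this
  · exact hP.mono (le_abs_self f)

theorem Pos.abs_nonneg {P : Du L} (hP : Pos P) (f : C(L, ℝ)) : 0 ≤ P |f| := hP _ (_root_.abs_nonneg f)

theorem pos_hom (P : Du L) (c : ℝ) (hc : 0 < c) (f : C(L, ℝ)) : P |c • f| = c * P |f| := by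
  have : |c • f| = c • |f| := by
    ext x
    simp [abs_mul, abs_of_pos hc]
  rw [this, map_smul, smul_eq_mul]

theorem Pos.sub_additive {P : Du L} (hP : Pos P) (f g : C(L, ℝ)) : P |f + g| ≤ P |f| + P |g| := by
  rw [← map_add]
  exact hP.mono (abs_add_le f g)

theorem Pos.le_norm {P : Du L} (hP : Pos P) (f : C(L, ℝ)) :
    P |f| ≤ P (ContinuousMap.const L 1) * ‖f‖ := by
  have h1 : (ContinuousMap.const L ‖f‖ : C(L, ℝ)) = ‖f‖ • ContinuousMap.const L (1:ℝ) := by
    ext x; simp
  calc P |f| ≤ P (ContinuousMap.const L ‖f‖) := hP.mono (abs_le_norm_const f)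
    _ = _ := by rw [h1, map_smul, smul_eq_mul, mul_comm]

/-- build a continuous functional out of a linear one dominated by a multiple of the norm -/
theorem mkDu (b : C(L, ℝ) →ₗ[ℝ] ℝ) (C : ℝ) (h : ∀ f, b f ≤ C * ‖f‖) :
    ∃ b' : Du L, ∀ f, b' f = b f := by
  refine ⟨b.mkContinuous C ?_, fun f => rfl⟩
  intro f
  rw [Real.norm_eq_abs, _root_.abs_le]
  constructor
  · have := h (-f)
    rw [map_neg, norm_neg] at this
    linarith
  · exact h f

theorem norm_le_of_le (e : Du L) (d : ℝ) (hd : 0 ≤ d) (h : ∀ f, e f ≤ d * ‖f‖) : ‖e‖ ≤ d := by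
  refine e.opNorm_le_bound hd ?_
  intro f
  rw [Real.norm_eq_abs, _root_.abs_le]
  constructor
  · have := h (-f)
    rw [map_neg, norm_neg] at this
    linarith
  · exact h f

theorem le_norm_mul (e : Du L) (f : C(L, ℝ)) : e f ≤ ‖e‖ * ‖f‖ :=
  (le_abs_self _).trans (e.le_opNorm f)

/-- Jordan-type decomposition: every functional is dominated by a positive one. -/
theorem exists_pos_dom (φ : Du L) :
    ∃ Q : Du L, Pos Q ∧ (∀ f, |φ f| ≤ Q |f|) ∧ Q (ContinuousMap.const L 1) ≤ 2 * ‖φ‖ := by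
  -- p f = ‖φ‖ ‖f⁺‖, q f = ‖φ‖ ‖f⁻‖
  have hsup : ∀ f g : C(L, ℝ), ‖(f + g) ⊔ 0‖ ≤ ‖f ⊔ 0‖ + ‖g ⊔ 0‖ := by
    intro f g
    rw [ContinuousMap.norm_le _ (by positivity)]
    intro x
    have h1 := (f ⊔ 0).norm_coe_le_norm x
    have h2 := (g ⊔ 0).norm_coe_le_norm x
    simp only [ContinuousMap.sup_apply, ContinuousMap.zero_apply, ContinuousMap.add_apply,
      Real.norm_eq_abs] at *
    have a1 : |f x ⊔ 0| = f x ⊔ 0 := abs_of_nonneg le_sup_right
    have a2 : |g x ⊔ 0| = g x ⊔ 0 := abs_of_nonneg le_sup_right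
    have a3 : |(f x + g x) ⊔ 0| = (f x + g x) ⊔ 0 := abs_of_nonneg le_sup_right
    rw [a1] at h1
    rw [a2] at h2
    rw [a3]
    have : (f x + g x) ⊔ 0 ≤ (f x ⊔ 0) + (g x ⊔ 0) := by
      apply sup_le
      · exact add_le_add le_sup_left le_sup_left
      · exact add_nonneg le_sup_right le_sup_right
    linarith
  have hhom : ∀ c : ℝ, 0 < c → ∀ f : C(L, ℝ), ‖(c • f) ⊔ 0‖ = c * ‖f ⊔ 0‖ := by
    intro c hc f
    have : (c • f) ⊔ 0 = c • (f ⊔ 0) := by
      ext x
      simp only [ContinuousMap.sup_apply, ContinuousMap.smul_apply, ContinuousMap.zero_apply,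
        smul_eq_mul]
      rcases le_total (f x) 0 with h | h
      · rw [sup_eq_right.mpr h, sup_eq_right.mpr (mul_nonpos_of_nonneg_of_nonpos hc.le h), mul_zero]
      · rw [sup_eq_left.mpr h, sup_eq_left.mpr (mul_nonneg hc.le h)]
    rw [this, norm_smul, Real.norm_eq_abs, abs_of_pos hc]
  obtain ⟨b, e, h1, h2, h3⟩ := sandwich φ.toLinearMap (fun f => ‖φ‖ * ‖f ⊔ 0‖)
    (fun f => ‖φ‖ * ‖(-f) ⊔ 0‖)
    (by intro c hc f; simp only [hhom c hc f]; ring)
    (by
      intro f g
      have := mul_le_mul_of_nonneg_left (hsup f g) (norm_nonneg φ)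
      linarith)
    (by
      intro c hc f
      have : -(c • f) = c • (-f) := by simp
      simp only [this, hhom c hc (-f)]; ring)
    (by
      intro f g
      have h := mul_le_mul_of_nonneg_left (hsup (-f) (-g)) (norm_nonneg φ)
      have : -(f + g) = -f + -g := by abel
      simp only [this]
      linarith)
    (by
      intro f
      show φ f ≤ _
      have hf : ‖f‖ ≤ ‖f ⊔ 0‖ + ‖(-f) ⊔ 0‖ := by
        have : f = (f ⊔ 0) - ((-f) ⊔ 0) := by
          ext x
          simp only [ContinuousMap.sub_apply, ContinuousMap.sup_apply, ContinuousMap.zero_apply,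
            ContinuousMap.neg_apply]
          rcases le_total (f x) 0 with h | h
          · rw [sup_eq_right.mpr h, sup_eq_left.mpr (by linarith)]; ring
          · rw [sup_eq_left.mpr h, sup_eq_right.mpr (by linarith)]; ring
        calc ‖f‖ = ‖(f ⊔ 0) - ((-f) ⊔ 0)‖ := by rw [← this]
          _ ≤ _ := norm_sub_le _ _
      have := mul_le_mul_of_nonneg_left hf (norm_nonneg φ)
      linarith [le_norm_mul φ f])
  have hs : ∀ f : C(L, ℝ), 0 ≤ f → (-f) ⊔ 0 = 0 := by
    intro f hf
    exact sup_eq_right.mpr (neg_nonpos.mpr hf)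
  have hbpos : ∀ f, 0 ≤ f → 0 ≤ b f := by
    intro f hf
    have := h2 (-f)
    simp only [hs f hf, norm_zero, mul_zero, map_neg] at this
    linarith
  have hepos : ∀ f, 0 ≤ f → e f ≤ 0 := by
    intro f hf
    have := h3 f
    simp only [hs f hf, norm_zero, mul_zero] at this
    linarith
  have hnle : ∀ f : C(L, ℝ), ‖f ⊔ 0‖ ≤ ‖f‖ := by
    intro f
    rw [ContinuousMap.norm_le _ (norm_nonneg f)]
    intro x
    simp only [ContinuousMap.sup_apply, ContinuousMap.zero_apply, Real.norm_eq_abs]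
    rw [abs_of_nonneg le_sup_right]
    exact sup_le ((le_abs_self _).trans (f.norm_coe_le_norm x)) (norm_nonneg f)
  obtain ⟨Q, hQ⟩ := mkDu (b - e) (2 * ‖φ‖) (by
    intro f
    simp only [LinearMap.sub_apply]
    have k1 := h2 f
    have k2 := h3 (-f)
    simp only [map_neg, neg_neg] at k2
    have := mul_le_mul_of_nonneg_left (hnle f) (norm_nonneg φ)
    linarith)
  refine ⟨Q, ?_, ?_, ?_⟩
  · intro f hf
    rw [hQ, LinearMap.sub_apply]
    linarith [hbpos f hf, hepos f hf]
  · intro f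
    have hf : φ f = b f + e f := h1 f
    have c1 : |b f| ≤ b |f| := by
      rw [_root_.abs_le]
      constructor
      · have := hbpos (|f| + f) (by
          have := add_le_add_right (neg_abs_le' f) (|f|)
          rwa [add_neg_cancel] at this)
        rw [map_add] at this; linarith
      · have := hbpos (|f| - f) (sub_nonneg.mpr (le_abs_self f))
        rw [map_sub] at this; linarith
    have c2 : |e f| ≤ - e |f| := by
      rw [_root_.abs_le]
      constructor
      · have := hepos (|f| - f) (sub_nonneg.mpr (le_abs_self f))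
        rw [map_sub] at this; linarith
      · have := hepos (|f| + f) (by
          have := add_le_add_right (neg_abs_le' f) (|f|)
          rwa [add_neg_cancel] at this)
        rw [map_add] at this; linarith
    rw [hf, hQ, LinearMap.sub_apply]
    have := abs_add_le (b f) (e f)
    linarith
  · rw [hQ, LinearMap.sub_apply]
    have hc : ‖(ContinuousMap.const L (1:ℝ) : C(L, ℝ))‖ ≤ 1 := by
      rw [ContinuousMap.norm_le _ zero_le_one]
      intro x; simp
    have k1 := h2 (ContinuousMap.const L 1)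
    have k2 := h3 (-ContinuousMap.const L 1)
    simp only [map_neg, neg_neg] at k2
    have k3 := mul_le_mul_of_nonneg_left ((hnle (ContinuousMap.const L 1)).trans hc) (norm_nonneg φ)
    linarith

/-- nearest point in an order interval. -/
theorem exists_proj (P μ : Du L) (hP : Pos P) (d : ℝ) (hd : 0 ≤ d)
    (h : ∀ f, μ f ≤ P |f| + d * ‖f‖) :
    ∃ b : Du L, (∀ f, b f ≤ P |f|) ∧ ‖μ - b‖ ≤ d := by
  obtain ⟨b, e, h1, h2, h3⟩ := sandwich μ.toLinearMap (fun f => P |f|) (fun f => d * ‖f‖)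
    (pos_hom P) hP.sub_additive
    (by intro c hc f; simp only [norm_smul, Real.norm_eq_abs, abs_of_pos hc]; ring)
    (by intro f g; have := mul_le_mul_of_nonneg_left (norm_add_le f g) hd; linarith)
    h
  obtain ⟨b', hb'⟩ := mkDu b (P (ContinuousMap.const L 1)) (fun f => (h2 f).trans (hP.le_norm f))
  refine ⟨b', fun f => by rw [hb']; exact h2 f, ?_⟩
  apply norm_le_of_le _ _ hd
  intro f
  have : μ f = b f + e f := h1 f
  simp only [sub_apply]
  rw [this, hb']
  linarith [h3 f]

/-- additivity of the norm at the nearest point. -/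
theorem add_norm (P μ b b' : Du L) (d : ℝ)
    (hb : ∀ f, b f ≤ P |f|) (hμb : ‖μ - b‖ ≤ d) (hb' : ∀ f, b' f ≤ P |f|)
    (hd : ∀ θ : ℝ, 0 < θ → ∃ f : C(L, ℝ), ‖f‖ ≤ 1 ∧ d - θ ≤ μ f - P |f|) :
    ‖b - b'‖ + d ≤ ‖μ - b'‖ := by
  have key : ∀ θ : ℝ, 0 < θ → ∀ h : C(L, ℝ), ‖h‖ ≤ 1 → (b - b') h + d - 4 * θ ≤ ‖μ - b'‖ := by
    intro θ hθ h hh
    obtain ⟨f, hf1, hf2⟩ := hd θ hθ
    have hfx : ∀ x, |f x| ≤ 1 := fun x => (f.norm_coe_le_norm x).trans hf1
    have hhx : ∀ x, |h x| ≤ 1 := fun x => (h.norm_coe_le_norm x).trans hh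
    let w : C(L, ℝ) := (1 - |f|) * h
    have hwx : ∀ x, w x = (1 - |f x|) * h x := fun x => rfl
    have hw : ∀ x, |w x| ≤ 1 - |f x| := by
      intro x
      rw [hwx, abs_mul, abs_of_nonneg (by linarith [hfx x])]
      have := mul_le_mul_of_nonneg_left (hhx x) (show 0 ≤ 1 - |f x| by linarith [hfx x])
      linarith
    have n1 : ‖f + w‖ ≤ 1 := by
      rw [ContinuousMap.norm_le _ zero_le_one]
      intro x
      rw [ContinuousMap.add_apply, Real.norm_eq_abs]
      linarith [abs_add_le (f x) (w x), hw x]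
    have n2 : ‖f - w‖ ≤ 1 := by
      rw [ContinuousMap.norm_le _ zero_le_one]
      intro x
      rw [ContinuousMap.sub_apply, Real.norm_eq_abs]
      linarith [abs_sub (f x) (w x), hw x]
    -- e = μ - b
    have e1 : d - θ ≤ (μ - b) f := by
      rw [sub_apply]; linarith [hb f]
    have dnn : 0 ≤ d := (norm_nonneg (μ - b)).trans hμb
    have e2 : (μ - b) (f - w) ≤ d := by
      calc (μ - b) (f - w) ≤ ‖μ - b‖ * ‖f - w‖ := le_norm_mul _ _
        _ ≤ d * 1 := mul_le_mul hμb n2 (norm_nonneg _) dnn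
        _ = d := mul_one d
    rw [map_sub] at e2
    have e3 : (μ - b) f ≤ d := by
      calc (μ - b) f ≤ ‖μ - b‖ * ‖f‖ := le_norm_mul _ _
        _ ≤ d * 1 := mul_le_mul hμb hf1 (norm_nonneg _) dnn
        _ = d := mul_one d
    have b1 : P |f| - θ ≤ b f := by
      rw [sub_apply] at e3
      linarith
    let g : C(L, ℝ) := f - |f| * h
    have hgx : ∀ x, g x = f x - |f x| * h x := fun x => rfl
    have hg2 : |(2:ℝ) • f - g| + |g| = (2:ℝ) • |f| := by
      ext x
      simp only [ContinuousMap.add_apply, ContinuousMap.smul_apply, smul_eq_mul,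
        ContinuousMap.abs_apply, ContinuousMap.sub_apply, hgx]
      have hx := hhx x
      rw [_root_.abs_le] at hx
      rcases le_total 0 (f x) with h0 | h0
      · rw [abs_of_nonneg h0]
        rw [abs_of_nonneg (by nlinarith), abs_of_nonneg (by nlinarith)]
        ring
      · rw [abs_of_nonpos h0]
        rw [abs_of_nonpos (by nlinarith), abs_of_nonpos (by nlinarith)]
        ring
    have b2 : P |g| - 2 * θ ≤ b g := by
      have i1 := hb ((2:ℝ) • f - g)
      have i2 : P |(2:ℝ) • f - g| + P |g| = 2 * P |f| := by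
        rw [← map_add, hg2, map_smul, smul_eq_mul]
      rw [map_sub, map_smul, smul_eq_mul] at i1
      linarith
    have b3 : -(2 * θ) ≤ (b - b') g := by
      rw [sub_apply]; linarith [hb' g]
    have hfw : f + w = h + g := by
      ext x
      simp only [ContinuousMap.add_apply, hwx, hgx]
      ring
    have tot : (μ - b') (f + w) = (μ - b) f + (μ - b) w + ((b - b') h + (b - b') g) := by
      have : (b - b') h + (b - b') g = (b - b') (f + w) := by rw [hfw, map_add]
      rw [this]
      simp only [sub_apply, map_add]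
      ring
    have fin : (μ - b') (f + w) ≤ ‖μ - b'‖ := by
      calc (μ - b') (f + w) ≤ ‖μ - b'‖ * ‖f + w‖ := le_norm_mul _ _
        _ ≤ ‖μ - b'‖ * 1 := mul_le_mul_of_nonneg_left n1 (norm_nonneg (μ - b'))
        _ = _ := mul_one _
    linarith
  have key2 : ∀ h : C(L, ℝ), ‖h‖ ≤ 1 → (b - b') h ≤ ‖μ - b'‖ - d := by
    intro h hh
    apply le_of_forall_pos_le_add
    intro ε hε
    have := key (ε / 4) (by positivity) h hh
    linarith
  have h0 := key2 0 (by simp)
  rw [map_zero] at h0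
  have : ‖b - b'‖ ≤ ‖μ - b'‖ - d := by
    apply norm_le_of_le _ _ h0
    intro f
    rcases eq_or_ne f 0 with rfl | hf
    · simp
    · have hn : 0 < ‖f‖ := norm_pos_iff.mpr hf
      have := key2 (‖f‖⁻¹ • f) (by rw [norm_smul, norm_inv, norm_norm, inv_mul_cancel₀ hn.ne'])
      rw [map_smul, smul_eq_mul, inv_mul_le_iff₀ hn] at this
      linarith
  linarith

end R268.WE
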