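import Pool.Agent.R268.WE.RN

/-!
Lower semicontinuity and the selection theorem.
-/

namespace R268.WE

open Set Filter Topology

section Ultra

variable {E : Type*} [NormedAddCommGroup E] [NormedSpace ℝ E]

/-- Bounded families of functionals have pointwise limits along ultrafilters. -/
theorem ultra_lim {α : Type*} (U : Ultrafilter α) (φ : α → (E →L[ℝ] ℝ)) (R : ℝ)
    (h : ∀ a, ‖φ a‖ ≤ R) :
    ∃ ψ : E →L[ℝ] ℝ, ‖ψ‖ ≤ R ∧ ∀ x, Tendsto (fun a => φ a x) U (𝓝 (ψ x)) := by
  have hc := WeakDual.isCompact_closedBall (𝕜 := ℝ) (0 : StrongDual ℝ E) R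
  obtain ⟨ψ, hψ, hle⟩ := hc.ultrafilter_le_nhds (U.map (fun a => StrongDual.toWeakDual (φ a)))
    (by
      rw [le_principal_iff]
      refine Filter.mem_map.mpr (Filter.univ_mem' ?_)
      intro a
      show WeakDual.toStrongDual (StrongDual.toWeakDual (φ a)) ∈ Metric.closedBall 0 R
      rw [mem_closedBall_zero_iff]
      exact h a)
  refine ⟨WeakDual.toStrongDual ψ, ?_, ?_⟩
  · have : WeakDual.toStrongDual ψ ∈ Metric.closedBall (0 : StrongDual ℝ E) R := hψ
    rw [mem_closedBall_zero_iff] at this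
    exact this
  · intro x
    have h1 : Tendsto (fun a => StrongDual.toWeakDual (φ a)) U (𝓝 ψ) := hle
    exact ((WeakDual.eval_continuous x).tendsto ψ).comp h1

theorem dep_seq {α : Type*} (G : ℕ → α → Prop) (R : ℕ → α → α → Prop) (h0 : ∃ a, G 0 a)
    (hs : ∀ n a, G n a → ∃ a', G (n + 1) a' ∧ R n a a') :
    ∃ u : ℕ → α, ∀ n, G n (u n) ∧ R n (u n) (u (n + 1)) := by
  choose F hF using hs
  obtain ⟨a0, ha0⟩ := h0
  let v : (n : ℕ) → {a // G n a} := fun n => Nat.rec (motive := fun n => {a // G n a}) ⟨a0, ha0⟩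
    (fun n a => ⟨F n a.1 a.2, (hF n a.1 a.2).1⟩) n
  exact ⟨fun n => (v n).1, fun n => ⟨(v n).2, (hF n (v n).1 (v n).2).2⟩⟩

end Ultra

variable {L : Type*} [TopologicalSpace L] [CompactSpace L]

/-- multiplication of a functional by a continuous function -/
noncomputable def mulD (τ : C(L, ℝ)) (φ : Du L) : Du L :=
  φ ∘L (ContinuousLinearMap.mul ℝ C(L, ℝ) τ)

theorem mulD_apply (τ : C(L, ℝ)) (φ : Du L) (f : C(L, ℝ)) : mulD τ φ f = φ (τ * f) := rfl

/-- The hypotheses on nearest points. -/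
structure Data (L X : Type*) [TopologicalSpace L] [CompactSpace L] [TopologicalSpace X] where
  P : Du L
  hP : Pos P
  μ : X → Du L
  hμ : ∀ f, Continuous fun x => μ x f
  b : X → Du L
  d : X → ℝ
  hb : ∀ x f, b x f ≤ P |f|
  hd : ∀ x, ‖μ x - b x‖ ≤ d x
  hd' : ∀ x θ, 0 < θ → ∃ f : C(L, ℝ), ‖f‖ ≤ 1 ∧ d x - θ ≤ μ x f - P |f|

theorem abs_le_of_dom {P φ : Du L} (h : ∀ f, φ f ≤ P |f|) (f : C(L, ℝ)) : |φ f| ≤ P |f| := by
  rw [_root_.abs_le]
  constructor
  · have := h (-f)
    rw [map_neg, abs_neg] at this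
    linarith
  · exact h f

theorem norm_le_of_dom {P φ : Du L} (hP : Pos P) (h : ∀ f, φ f ≤ P |f|) :
    ‖φ‖ ≤ P (ContinuousMap.const L 1) := by
  apply norm_le_of_le
  · apply hP
    intro x
    show (0:ℝ) ≤ 1
    exact zero_le_one
  · intro f
    exact (h f).trans (hP.le_norm f)

theorem lsc {X : Type*} [TopologicalSpace X] (D : Data L X) (t : X) (k : Du L)
    (hk : ∀ f, k f ≤ D.P |f|) (r r' : ℝ) (hr : ‖k - D.b t‖ ≤ D.d t + r) (hrr : r < r')
    {ι : Type*} [Fintype ι] (F : ι → C(L, ℝ)) (η : ℝ) (hη : 0 < η) :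
    ∀ᶠ s in 𝓝 t, ∃ k' : Du L, (∀ f, k' f ≤ D.P |f|) ∧ ‖k' - D.b s‖ ≤ D.d s + r' ∧
      ∀ i, |k' (F i) - k (F i)| < η := by
  by_contra hcon
  rw [not_eventually] at hcon
  set bad : Set X := {s | ¬ ∃ k' : Du L, (∀ f, k' f ≤ D.P |f|) ∧ ‖k' - D.b s‖ ≤ D.d s + r' ∧
      ∀ i, |k' (F i) - k (F i)| < η} with hbad
  have hne : NeBot (𝓝 t ⊓ 𝓟 bad) := frequently_mem_iff_neBot.mp hcon
  let U : Ultrafilter X := Ultrafilter.of (𝓝 t ⊓ 𝓟 bad)
  have hU : (U : Filter X) ≤ 𝓝 t ⊓ 𝓟 bad := Ultrafilter.of_le _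
  have hUt : (U : Filter X) ≤ 𝓝 t := hU.trans inf_le_left
  have hUb : ∀ᶠ s in (U : Filter X), s ∈ bad := by
    have : (U : Filter X) ≤ 𝓟 bad := hU.trans inf_le_right
    exact this (mem_principal_self _)
  obtain ⟨b', _, hb'⟩ := ultra_lim U D.b (D.P (ContinuousMap.const L 1))
    (fun s => norm_le_of_dom D.hP (D.hb s))
  have hb'dom : ∀ f, b' f ≤ D.P |f| := fun f =>
    le_of_tendsto (hb' f) (Eventually.of_forall fun s => D.hb s f)
  have hμ : ∀ f, Tendsto (fun s => D.μ s f) U (𝓝 (D.μ t f)) := fun f =>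
    ((D.hμ f).tendsto t).mono_left hUt
  set ε : ℝ := min ((r' - r) / 3) (η / 2) with hε
  have hε0 : 0 < ε := lt_min (by linarith) (by linarith)
  have hε1 : 3 * ε ≤ r' - r := by
    have := min_le_left ((r' - r) / 3) (η / 2)
    linarith
  have hε2 : 2 * ε ≤ η := by
    have := min_le_right ((r' - r) / 3) (η / 2)
    linarith
  -- distance in the limit
  have A : ∀ᶠ s in (U : Filter X), ‖D.μ t - b'‖ ≤ D.d s + ε := by
    have : ∃ f : C(L, ℝ), ‖f‖ ≤ 1 ∧ ‖D.μ t - b'‖ - ε / 2 ≤ (D.μ t - b') f := by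
      by_contra hno
      push Not at hno
      have h0 := hno 0 (by simp)
      rw [map_zero] at h0
      have : ‖D.μ t - b'‖ ≤ ‖D.μ t - b'‖ - ε / 2 := by
        apply norm_le_of_le _ _ h0.le
        intro f
        rcases eq_or_ne f 0 with rfl | hf
        · simp
        · have hn : 0 < ‖f‖ := norm_pos_iff.mpr hf
          have := (hno (‖f‖⁻¹ • f) (by
            rw [norm_smul, norm_inv, norm_norm, inv_mul_cancel₀ hn.ne'])).le
          rw [map_smul, smul_eq_mul, inv_mul_le_iff₀ hn] at this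
          linarith
      linarith
    obtain ⟨f, hf1, hf2⟩ := this
    have hlim : Tendsto (fun s => (D.μ s - D.b s) f) U (𝓝 ((D.μ t - b') f)) := by
      simp only [sub_apply]
      exact (hμ f).sub (hb' f)
    have := hlim.eventually (lt_mem_nhds (show (D.μ t - b') f - ε / 2 < (D.μ t - b') f by linarith))
    filter_upwards [this] with s hs
    have h1 : (D.μ s - D.b s) f ≤ D.d s := by
      calc (D.μ s - D.b s) f ≤ ‖D.μ s - D.b s‖ * ‖f‖ := le_norm_mul _ _
        _ ≤ ‖D.μ s - D.b s‖ * 1 := mul_le_mul_of_nonneg_left hf1 (norm_nonneg (D.μ s - D.b s))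
        _ ≤ D.d s := by rw [mul_one]; exact D.hd s
    linarith
  have B : ‖k - b'‖ ≤ ‖D.μ t - b'‖ + r := by
    have h1 := add_norm D.P (D.μ t) (D.b t) b' (D.d t) (D.hb t) (D.hd t) hb'dom (D.hd' t)
    have h2 : ‖k - b'‖ ≤ ‖k - D.b t‖ + ‖D.b t - b'‖ := by
      have : k - b' = (k - D.b t) + (D.b t - b') := by abel
      rw [this]
      exact norm_add_le (k - D.b t) (D.b t - b')
    linarith
  obtain ⟨τ, τ', hτ, hτ', hττ, h3, h4⟩ := rn_approx (D.P - b') (D.P + b') (k - b')
    (by
      intro f hf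
      rw [sub_apply]
      have := hb'dom f
      rw [abs_of_nonneg hf] at this
      linarith)
    (by
      intro f hf
      rw [add_apply]
      have := hb'dom (-f)
      rw [abs_neg, abs_of_nonneg hf, map_neg] at this
      linarith)
    (by
      intro g hg
      simp only [sub_apply]
      have := hk g
      rw [abs_of_nonneg hg] at this
      linarith)
    (by
      intro g hg
      simp only [sub_apply, add_apply]
      have := hk (-g)
      rw [abs_neg, abs_of_nonneg hg, map_neg] at this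
      linarith)
    F ε hε0
  have C1 : ∀ᶠ s in (U : Filter X), (D.P - D.b s) τ + (D.P + D.b s) τ' < ‖k - b'‖ + 2 * ε := by
    have hlim : Tendsto (fun s => (D.P - D.b s) τ + (D.P + D.b s) τ') U
        (𝓝 ((D.P - b') τ + (D.P + b') τ')) := by
      simp only [sub_apply, add_apply]
      exact ((tendsto_const_nhds).sub (hb' τ)).add ((tendsto_const_nhds).add (hb' τ'))
    exact hlim.eventually (gt_mem_nhds (by linarith))
  let ks : X → Du L := fun s => D.b s + mulD τ (D.P - D.b s) - mulD τ' (D.P + D.b s)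
  have hks : ∀ s f, ks s f = D.b s f + (D.P (τ * f) - D.b s (τ * f)) -
      (D.P (τ' * f) + D.b s (τ' * f)) := fun s f => rfl
  have C2 : ∀ i, ∀ᶠ s in (U : Filter X), |ks s (F i) - k (F i)| < η := by
    intro i
    have hlim : Tendsto (fun s => ks s (F i)) U (𝓝 (b' (F i) + (D.P (τ * F i) - b' (τ * F i)) -
      (D.P (τ' * F i) + b' (τ' * F i)))) := by
      simp only [hks]
      exact ((hb' _).add (tendsto_const_nhds.sub (hb' _))).sub (tendsto_const_nhds.add (hb' _))
    have h5 := h3 i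
    simp only [sub_apply, add_apply] at h5
    have hclose : |b' (F i) + (D.P (τ * F i) - b' (τ * F i)) -
      (D.P (τ' * F i) + b' (τ' * F i)) - k (F i)| < ε := by
      have e : b' (F i) + (D.P (τ * F i) - b' (τ * F i)) -
        (D.P (τ' * F i) + b' (τ' * F i)) - k (F i) = D.P (τ * F i) - b' (τ * F i) -
        (D.P (τ' * F i) + b' (τ' * F i)) - (k (F i) - b' (F i)) := by ring
      rw [e]; exact h5
    have := (hlim.sub_const (k (F i))).abs.eventually (gt_mem_nhds (lt_of_lt_of_le hclose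
      (show ε ≤ η by linarith)))
    exact this
  have C2' : ∀ᶠ s in (U : Filter X), ∀ i, |ks s (F i) - k (F i)| < η := eventually_all.mpr C2
  obtain ⟨s, hs1, hs2, hs3, hs4⟩ := (A.and (C1.and (C2'.and hUb))).exists
  apply hs4
  refine ⟨ks s, ?_, ?_, hs3⟩
  · intro f
    have e : ks s f = D.b s ((1 - τ - τ') * f) + D.P ((τ - τ') * f) := by
      rw [hks]
      simp only [sub_mul, one_mul, map_sub]
      ring
    rw [e]
    have h1 := D.hb s ((1 - τ - τ') * f)
    have h2 : D.P ((τ - τ') * f) ≤ D.P ((τ + τ') * |f|) := by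
      apply D.hP.mono
      intro x
      show (τ x - τ' x) * f x ≤ (τ x + τ' x) * |f x|
      have k1 := mul_le_mul_of_nonneg_left (le_abs_self (f x)) (hτ x)
      have k2 := mul_le_mul_of_nonneg_left (neg_abs_le (f x)) (hτ' x)
      linarith
    have h3 : |(1 - τ - τ') * f| + (τ + τ') * |f| = |f| := by
      ext x
      show |(1 - τ x - τ' x) * f x| + (τ x + τ' x) * |f x| = |f x|
      rw [abs_mul, abs_of_nonneg (by linarith [hττ x])]
      ring
    have h4 : D.P |(1 - τ - τ') * f| + D.P ((τ + τ') * |f|) = D.P |f| := by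
      rw [← map_add, h3]
    linarith
  · have hnn1 : 0 ≤ (D.P - D.b s) τ := by
      rw [sub_apply]
      have := D.hb s τ
      rw [abs_of_nonneg (show 0 ≤ τ from hτ)] at this
      linarith
    have hnn2 : 0 ≤ (D.P + D.b s) τ' := by
      rw [add_apply]
      have := D.hb s (-τ')
      rw [abs_neg, abs_of_nonneg (show 0 ≤ τ' from hτ'), map_neg] at this
      linarith
    have hn : ‖ks s - D.b s‖ ≤ (D.P - D.b s) τ + (D.P + D.b s) τ' := by
      apply norm_le_of_le _ _ (by linarith)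
      intro f
      have e : (ks s - D.b s) f = (D.P (τ * f) - D.b s (τ * f)) -
        (D.P (τ' * f) + D.b s (τ' * f)) := by
        rw [sub_apply, hks]; ring
      rw [e]
      have g1 : D.P (τ * f) - D.b s (τ * f) ≤ (D.P - D.b s) τ * ‖f‖ := by
        have hpos : 0 ≤ ‖f‖ • τ - τ * f := by
          intro x
          show 0 ≤ ‖f‖ * τ x - τ x * f x
          have := mul_le_mul_of_nonneg_left ((le_abs_self (f x)).trans (f.norm_coe_le_norm x)) (hτ x)
          linarith
        have := D.hb s (‖f‖ • τ - τ * f)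
        rw [abs_of_nonneg hpos] at this
        simp only [map_sub, map_smul, smul_eq_mul] at this
        rw [sub_apply]
        linarith
      have g2 : -(D.P (τ' * f) + D.b s (τ' * f)) ≤ (D.P + D.b s) τ' * ‖f‖ := by
        have hpos : 0 ≤ ‖f‖ • τ' + τ' * f := by
          intro x
          show 0 ≤ ‖f‖ * τ' x + τ' x * f x
          have := mul_le_mul_of_nonneg_left (show -‖f‖ ≤ f x from by
            linarith [neg_abs_le (f x), f.norm_coe_le_norm x, Real.norm_eq_abs (f x)]) (hτ' x)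
          linarith
        have := D.hb s (-(‖f‖ • τ' + τ' * f))
        rw [abs_neg, abs_of_nonneg hpos] at this
        simp only [map_neg, map_add, map_smul, smul_eq_mul] at this
        rw [add_apply]
        linarith
      linarith
    linarith

end R268.WE
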