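import Pool.Agent.R268.WE.Hump

/-!
Weakly compact operators: definitions, factorisation through Hilbert space.
-/

namespace R268.WE

open Set Filter Topology MeasureTheory

section Defs

variable (𝕜 : Type*) [RCLike 𝕜] {E F : Type*} [NormedAddCommGroup E] [NormedSpace 𝕜 E]
  [NormedAddCommGroup F] [NormedSpace 𝕜 F]

/-- An operator is weakly compact if the image of the closed unit ball is relatively weakly
compact: its closure in the weak topology of `F` is compact in the weak topology. -/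
def IsWeaklyCompactOp (W : E →L[𝕜] F) : Prop :=
  IsCompact (closure (toWeakSpace 𝕜 F '' (W '' Metric.closedBall (0 : E) 1)))

/-- The weak essential norm: distance to the weakly compact operators. -/
noncomputable def wEssNorm (T : E →L[𝕜] F) : ℝ :=
  sInf {r : ℝ | ∃ W : E →L[𝕜] F, IsWeaklyCompactOp 𝕜 W ∧ r = ‖T - W‖}

/-- The dual `E^*` of a normed space, with the operator norm. -/
abbrev DualK (𝕜 E : Type*) [RCLike 𝕜] [NormedAddCommGroup E] [NormedSpace 𝕜 E] : Type _ :=
  E →L[𝕜] 𝕜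

/-- The adjoint `T^* : F^* → E^*`, `T^* φ = φ ∘ T`. -/
noncomputable def adj (T : E →L[𝕜] F) : DualK 𝕜 F →L[𝕜] DualK 𝕜 E :=
  (ContinuousLinearMap.compL 𝕜 E F 𝕜).flip T

end Defs

section

variable {𝕜 : Type*} [RCLike 𝕜] {E F : Type*} [NormedAddCommGroup E] [NormedSpace 𝕜 E]
  [NormedAddCommGroup F] [NormedSpace 𝕜 F]

theorem adj_apply (T : E →L[𝕜] F) (φ : DualK 𝕜 F) (x : E) : adj 𝕜 T φ x = φ (T x) := rfl

theorem isWeaklyCompactOp_zero : IsWeaklyCompactOp 𝕜 (0 : E →L[𝕜] F) := by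
  have h : toWeakSpace 𝕜 F '' ((0 : E →L[𝕜] F) '' Metric.closedBall (0 : E) 1) ⊆ {0} := by
    rintro _ ⟨_, ⟨x, _, rfl⟩, rfl⟩
    simp
  exact isCompact_singleton.closure_of_subset h

theorem wEssNorm_le (T W : E →L[𝕜] F) (hW : IsWeaklyCompactOp 𝕜 W) : wEssNorm 𝕜 T ≤ ‖T - W‖ := by
  refine csInf_le ⟨0, ?_⟩ ⟨W, hW, rfl⟩
  rintro r ⟨W', _, rfl⟩
  exact norm_nonneg (T - W')

theorem le_wEssNorm (T : E →L[𝕜] F) (a : ℝ) (h : ∀ W : E →L[𝕜] F, IsWeaklyCompactOp 𝕜 W →
    a ≤ ‖T - W‖) : a ≤ wEssNorm 𝕜 T := by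
  refine le_csInf ⟨_, 0, isWeaklyCompactOp_zero, rfl⟩ ?_
  rintro r ⟨W', hW', rfl⟩
  exact h W' hW'

/-- operators factoring through a Hilbert space are weakly compact -/
theorem hilbert_factor {H : Type*} [NormedAddCommGroup H] [InnerProductSpace 𝕜 H] [CompleteSpace H]
    (A : E →L[𝕜] H) (B : H →L[𝕜] F) (W : E →L[𝕜] F) (hW : ∀ x, W x = B (A x)) :
    IsWeaklyCompactOp 𝕜 W := by
  let Θ : WeakDual 𝕜 H → WeakSpace 𝕜 F := fun φ =>
    toWeakSpace 𝕜 F (B ((InnerProductSpace.toDual 𝕜 H).symm (WeakDual.toStrongDual φ)))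
  have hΘ : Continuous Θ := by
    refine WeakBilin.continuous_of_continuous_eval _ fun l => ?_
    -- l (B z) = ⟪v, z⟫
    let v : H := (InnerProductSpace.toDual 𝕜 H).symm (l ∘L B)
    have e : ∀ φ : WeakDual 𝕜 H, l (B ((InnerProductSpace.toDual 𝕜 H).symm
        (WeakDual.toStrongDual φ))) = (starRingEnd 𝕜) (φ v) := by
      intro φ
      have h1 : l (B ((InnerProductSpace.toDual 𝕜 H).symm (WeakDual.toStrongDual φ))) =
          inner 𝕜 v ((InnerProductSpace.toDual 𝕜 H).symm (WeakDual.toStrongDual φ)) := by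
        rw [InnerProductSpace.toDual_symm_apply]; rfl
      rw [h1, ← inner_conj_symm, InnerProductSpace.toDual_symm_apply]
      rfl
    have : Continuous fun φ : WeakDual 𝕜 H => (starRingEnd 𝕜) (φ v) :=
      RCLike.continuous_conj.comp (WeakDual.eval_continuous v)
    refine this.congr fun φ => ?_
    rw [← e]
    rfl
  have hK := (WeakDual.isCompact_closedBall (𝕜 := 𝕜) (0 : StrongDual 𝕜 H) ‖A‖).image hΘ
  refine hK.closure_of_subset ?_
  rintro _ ⟨_, ⟨x, hx, rfl⟩, rfl⟩
  refine ⟨StrongDual.toWeakDual (InnerProductSpace.toDual 𝕜 H (A x)), ?_, ?_⟩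
  · show InnerProductSpace.toDual 𝕜 H (A x) ∈ Metric.closedBall (0 : StrongDual 𝕜 H) ‖A‖
    rw [mem_closedBall_zero_iff, LinearIsometryEquiv.norm_map]
    rw [mem_closedBall_zero_iff] at hx
    calc ‖A x‖ ≤ ‖A‖ * ‖x‖ := A.le_opNorm x
      _ ≤ ‖A‖ * 1 := mul_le_mul_of_nonneg_left hx (norm_nonneg A)
      _ = ‖A‖ := mul_one _
  · show toWeakSpace 𝕜 F (B ((InnerProductSpace.toDual 𝕜 H).symm
      (InnerProductSpace.toDual 𝕜 H (A x)))) = _
    rw [LinearIsometryEquiv.symm_apply_apply, hW]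

/-- families in relatively weakly compact sets have weak cluster points (after any real-linear
continuous map). -/
theorem wc_of_compact [NormedSpace ℝ E] [IsScalarTower ℝ 𝕜 E] {N : Type*} [NormedAddCommGroup N]
    [NormedSpace ℝ N] (ρ : E →L[ℝ] N) (S : Set E)
    (hS : IsCompact (closure (toWeakSpace 𝕜 E '' S))) {X : Type*} (h : X → E) (hh : ∀ x, h x ∈ S) :
    WC (fun x => ρ (h x)) := by
  intro x
  obtain ⟨z, _, hz⟩ := hS.exists_mapClusterPt (f := (atTop : Filter ℕ))
    (u := fun n => toWeakSpace 𝕜 E (h (x n))) (by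
      rw [le_principal_iff]
      refine Filter.mem_map.mpr (Filter.univ_mem' fun n => ?_)
      exact subset_closure ⟨_, hh _, rfl⟩)
  let z' : E := (toWeakSpace 𝕜 E).symm z
  refine ⟨ρ z', fun s e he => ?_⟩
  have hcont : ∀ G : N →L[ℝ] ℝ, Continuous fun y : WeakSpace 𝕜 E =>
      G (ρ ((toWeakSpace 𝕜 E).symm y)) := by
    intro G
    let G' : StrongDual 𝕜 E := StrongDual.extendRCLike (G ∘L ρ)
    have h1 : Continuous fun y : WeakSpace 𝕜 E => G' ((toWeakSpace 𝕜 E).symm y) :=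
      WeakBilin.eval_continuous _ G'
    have h2 := RCLike.continuous_re.comp h1
    refine h2.congr fun y => ?_
    simp only [Function.comp_apply, G']
    rw [StrongDual.re_extendRCLike_apply]
    rfl
  have hopen : IsOpen {y : WeakSpace 𝕜 E | ∀ G ∈ s, |G (ρ ((toWeakSpace 𝕜 E).symm y)) - G (ρ z')| < e} := by
    have : {y : WeakSpace 𝕜 E | ∀ G ∈ s, |G (ρ ((toWeakSpace 𝕜 E).symm y)) - G (ρ z')| < e} =
      ⋂ G ∈ s, {y : WeakSpace 𝕜 E | |G (ρ ((toWeakSpace 𝕜 E).symm y)) - G (ρ z')| < e} := by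
      ext y; simp
    rw [this]
    refine isOpen_biInter_finset fun G _ => ?_
    exact isOpen_lt ((hcont G).sub continuous_const).abs continuous_const
  have hmem : {y : WeakSpace 𝕜 E | ∀ G ∈ s, |G (ρ ((toWeakSpace 𝕜 E).symm y)) - G (ρ z')| < e} ∈ 𝓝 z := by
    apply hopen.mem_nhds
    intro G _
    show |G (ρ z') - G (ρ z')| < e
    rw [sub_self, abs_zero]
    exact he
  have := hz.frequently hmem
  refine this.mono fun n hn => ?_
  exact hn

end

section Interval

open unitInterval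

/-- a positive functional on `C[0,1]` is given by a finite measure -/
theorem exists_measure (P : Du I) (hP : Pos P) :
    ∃ m : Measure I, IsFiniteMeasure m ∧ ∀ f : C(I, ℝ), P f = ∫ x, f x ∂m := by
  let Λ : CompactlySupportedContinuousMap I ℝ →ₚ[ℝ] ℝ := PositiveLinearMap.mk₀
    { toFun := fun f => P f.toContinuousMap
      map_add' := fun f g => P.map_add f.toContinuousMap g.toContinuousMap
      map_smul' := fun c f => P.map_smul c f.toContinuousMap }
    (fun f hf => hP _ (fun x => hf x))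
  refine ⟨RealRMK.rieszMeasure Λ, ?_, ?_⟩
  · have : (RealRMK.rieszMeasure Λ).Regular := inferInstance
    infer_instance
  · intro f
    have h := RealRMK.integral_rieszMeasure Λ (CompactlySupportedContinuousMap.continuousMapEquiv f)
    have e : Λ (CompactlySupportedContinuousMap.continuousMapEquiv f) = P f := rfl
    rw [← e, ← h]
    rfl

/-- pointwise norm of a continuous function -/
noncomputable def nrm {𝕜 : Type*} [RCLike 𝕜] (f : C(I, 𝕜)) : C(I, ℝ) := ⟨fun x => ‖f x‖, by fun_prop⟩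

/-- operators dominated by a positive functional are weakly compact -/
theorem isWeaklyCompactOp_of_dom {𝕜 : Type*} [RCLike 𝕜] {F : Type*} [NormedAddCommGroup F]
    [NormedSpace 𝕜 F] [CompleteSpace F] (W : C(I, 𝕜) →L[𝕜] F) (P : Du I) (hP : Pos P)
    (h : ∀ f, ‖W f‖ ≤ P (nrm f)) : IsWeaklyCompactOp 𝕜 W := by
  obtain ⟨m, hm, hPm⟩ := exists_measure P hP
  let A : C(I, 𝕜) →L[𝕜] Lp 𝕜 2 m := ContinuousMap.toLp 2 m 𝕜
  have hA : DenseRange A := ContinuousMap.toLp_denseRange 𝕜 m 𝕜 (by norm_num)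
  have hbound : ∃ C, ∀ f, ‖W f‖ ≤ C * ‖A f‖ := by
    refine ⟨((m univ) ^ (1 / (1:ENNReal).toReal - 1 / (2:ENNReal).toReal)).toReal, fun f => ?_⟩
    refine (h f).trans ?_
    rw [hPm]
    have e1 : ∫ x, nrm f x ∂m = (eLpNorm f 1 m).toReal := by
      rw [eLpNorm_one_eq_lintegral_enorm]
      exact integral_norm_eq_lintegral_enorm f.continuous.aestronglyMeasurable
    have e2 : ‖A f‖ = (eLpNorm f 2 m).toReal := by
      rw [Lp.norm_def]
      congr 1
      exact eLpNorm_congr_ae (ContinuousMap.coeFn_toLp m f)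
    rw [e1, e2, mul_comm, ← ENNReal.toReal_mul]
    have hfin : eLpNorm f 2 m ≠ ⊤ := by
      have := (A f).2
      have h2 : eLpNorm f 2 m = eLpNorm (A f) 2 m :=
        (eLpNorm_congr_ae (ContinuousMap.coeFn_toLp m f)).symm
      rw [h2]
      exact Lp.eLpNorm_ne_top _
    apply ENNReal.toReal_mono
    · apply ENNReal.mul_ne_top hfin
      apply ENNReal.rpow_ne_top_of_nonneg
      · norm_num
      · exact measure_ne_top m _
    · exact eLpNorm_le_eLpNorm_mul_rpow_measure_univ (by norm_num)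
        f.continuous.aestronglyMeasurable
  let B : Lp 𝕜 2 m →L[𝕜] F := W.toLinearMap.extendOfNorm A.toLinearMap
  refine hilbert_factor A B W fun f => ?_
  exact (LinearMap.extendOfNorm_eq (f := W.toLinearMap) (e := A.toLinearMap) hA hbound f).symm

end Interval

end R268.WE
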